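import Mathlib

/-!
# BSDEs driven by a `d`-dimensional Brownian motion: definitions
-/

set_option autoImplicit false

namespace Pool.Agent.V11331.BE

open MeasureTheory ProbabilityTheory Set Filter
open scoped NNReal ENNReal Topology

universe u

variable {Ω : Type u} [mΩ : MeasurableSpace Ω] {d : ℕ}

/-- `B = (B 0, …, B (d-1))` is a standard `d`-dimensional Brownian motion (indexed by `ℝ≥0`) on the
probability space `(Ω, P)`: all coordinates are standard real Brownian motions in the sense of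
Mathlib (finite-dimensional laws of Brownian motion, almost surely continuous paths), every `B i t`
is a random variable, and the coordinate processes are independent. -/
structure IsBM (B : Fin d → ℝ≥0 → Ω → ℝ) (P : Measure Ω) : Prop where
  bm : ∀ i, IsBrownianReal (B i) P
  meas : ∀ i t, Measurable (B i t)
  indep : iIndepFun (fun i ω (t : ℝ≥0) => B i t ω) P

/-- The Brownian motion, read at real times `t` (only `t ≥ 0` matters). -/
def bt (B : Fin d → ℝ≥0 → Ω → ℝ) (i : Fin d) (t : ℝ) (ω : Ω) : ℝ := B i t.toNNReal ω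

set_option warn.classDefReducibility false in
/-- The completed natural filtration of `B`: `Fil B P t` is generated by the random variables
`B i s`, `s ≤ t`, and by all the `P`-null (measurable) sets. On a complete probability space
these are all the null sets. -/
def Fil (B : Fin d → ℝ≥0 → Ω → ℝ) (P : Measure Ω) (t : ℝ) : MeasurableSpace Ω :=
  MeasurableSpace.generateFrom
    ({A : Set Ω | ∃ (i : Fin d) (s : ℝ≥0) (C : Set ℝ), (s : ℝ) ≤ t ∧ MeasurableSet C ∧
        A = (B i s) ⁻¹' C} ∪ {A : Set Ω | MeasurableSet[mΩ] A ∧ P A = 0})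

/-- A real process `X` is progressively measurable on `[0, T]` with respect to the filtration
`F`: for every `t ∈ [0, T]` the map `(s, ω) ↦ X s ω` on `[0, t] × Ω` is measurable for the
product of the Borel σ-algebra of `[0, t]` and `F t`. -/
def Prog (T : ℝ) (F : ℝ → MeasurableSpace Ω) (X : ℝ → Ω → ℝ) : Prop :=
  ∀ t ∈ Icc (0 : ℝ) T,
    Measurable[(inferInstance : MeasurableSpace (Icc (0 : ℝ) t)).prod (F t), borel ℝ]
      (fun q : Icc (0 : ℝ) t × Ω => X q.1 q.2)

/-- `τ` is a stopping time of the filtration `F` with values in `[0, T]`. -/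
def IsStop (T : ℝ) (F : ℝ → MeasurableSpace Ω) (τ : Ω → ℝ) : Prop :=
  (∀ ω, 0 ≤ τ ω ∧ τ ω ≤ T) ∧ ∀ t ∈ Icc (0 : ℝ) T, MeasurableSet[F t] {ω | τ ω ≤ t}

/-- The process `X` is of class (D) on `[0, T]`: the family of all `X_τ`, with `τ` a stopping time
with values in `[0, T]`, is uniformly integrable (in the probabilists' sense). -/
def ClassD (T : ℝ) (P : Measure Ω) (F : ℝ → MeasurableSpace Ω) (X : ℝ → Ω → ℝ) : Prop :=
  UniformIntegrable (fun (τ : {τ : Ω → ℝ // IsStop T F τ}) (ω : Ω) => X (τ.1 ω) ω) 1 P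

/-- One block `h · 1_{(s, r]} e_j` of a simple integrand (`e_j` a coordinate vector of `ℝ^d`). -/
structure Blk (Ω : Type u) (d : ℕ) where
  /-- left end of the time interval -/
  s : ℝ
  /-- right end of the time interval -/
  r : ℝ
  /-- coordinate of the Brownian motion against which the block is integrated -/
  j : Fin d
  /-- the random coefficient -/
  h : Ω → ℝ

/-- The finite list `H` of blocks is a simple predictable integrand on `[0, T]`: in every block
`h · 1_{(s, r]} e_j` we have `0 ≤ s ≤ r ≤ T`, and `h` is bounded and `F s`-measurable. -/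
def IsSimple (T : ℝ) (F : ℝ → MeasurableSpace Ω) (H : List (Blk Ω d)) : Prop :=
  ∀ b ∈ H, 0 ≤ b.s ∧ b.s ≤ b.r ∧ b.r ≤ T ∧ Measurable[F b.s, borel ℝ] b.h ∧
    ∃ C : ℝ, ∀ ω, |b.h ω| ≤ C

/-- The value at time `t` of the `i`-th coordinate of the simple integrand `H`. -/
noncomputable def sval (H : List (Blk Ω d)) (i : Fin d) (t : ℝ) (ω : Ω) : ℝ :=
  (H.map fun b => if b.j = i ∧ b.s < t ∧ t ≤ b.r then b.h ω else 0).sum

/-- The stochastic integral `∫_0^t H · dW` of the simple integrand `H`: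
the sum of `h (W^j_{r ∧ t} - W^j_{s ∧ t})` over the blocks. -/
noncomputable def sint (W : Fin d → ℝ → Ω → ℝ) (H : List (Blk Ω d)) (t : ℝ) (ω : Ω) : ℝ :=
  (H.map fun b => b.h ω * (W b.j (min b.r t) ω - W b.j (min b.s t) ω)).sum

/-- `M` is the Itô integral process `M_t = ∫_0^t Z_s · dW_s`, `t ∈ [0, T]`: there are simple
integrands `H n` with `∫_0^T |H n - Z|² ds → 0` in probability and
`∫_0^t H n · dW → M_t` in probability, uniformly in `t ∈ [0, T]`. -/
def IsIto (T : ℝ) (P : Measure Ω) (F : ℝ → MeasurableSpace Ω) (W : Fin d → ℝ → Ω → ℝ)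
    (Z : Fin d → ℝ → Ω → ℝ) (M : ℝ → Ω → ℝ) : Prop :=
  ∃ H : ℕ → List (Blk Ω d), (∀ n, IsSimple T F (H n)) ∧
    (∀ ε : ℝ, 0 < ε → Tendsto (fun n => P {ω | ENNReal.ofReal ε ≤
        ∫⁻ s in Icc (0 : ℝ) T, ENNReal.ofReal (∑ i, (sval (H n) i s ω - Z i s ω) ^ 2)})
      atTop (𝓝 0)) ∧
    (∀ ε : ℝ, 0 < ε → Tendsto (fun n => ⨆ t ∈ Icc (0 : ℝ) T,
        P {ω | ε ≤ |sint W (H n) t ω - M t ω|}) atTop (𝓝 0))

/-- `(Y, Z)` is a solution of the BSDE `Y_t = ξ + ∫_t^T g(Z_s) ds - ∫_t^T Z_s · dB_s`,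
`t ∈ [0, T]`: `Y` and `Z` are progressively measurable, `Y` has continuous paths on `[0, T]`,
`∫_0^T |Z_s|² ds < ∞` almost surely, and there is an almost surely continuous version
`M_t = ∫_0^t Z_s · dB_s` of the Itô integral such that almost surely the equation holds for all
`t ∈ [0, T]`. -/
structure IsSol (T : ℝ) (P : Measure Ω) (B : Fin d → ℝ≥0 → Ω → ℝ) (g : (Fin d → ℝ) → ℝ)
    (ξ : Ω → ℝ) (Y : ℝ → Ω → ℝ) (Z : Fin d → ℝ → Ω → ℝ) : Prop where
  progY : Prog T (Fil B P) Y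
  progZ : ∀ i, Prog T (Fil B P) (Z i)
  contY : ∀ ω, ContinuousOn (fun t => Y t ω) (Icc 0 T)
  sqZ : ∀ᵐ ω ∂P, ∫⁻ s in Icc (0 : ℝ) T, ENNReal.ofReal (∑ i, (Z i s ω) ^ 2) < ∞
  eqn : ∃ M : ℝ → Ω → ℝ, IsIto T P (Fil B P) (bt B) Z M ∧
    (∀ᵐ ω ∂P, ContinuousOn (fun t => M t ω) (Icc 0 T)) ∧
    ∀ᵐ ω ∂P, ∀ t ∈ Icc (0 : ℝ) T,
      Y t ω = ξ ω + (∫ s in t..T, g (fun i => Z i s ω)) - (M T ω - M t ω)

end Pool.Agent.V11331.BE
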