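import Pool.Agent.V11331.BE.Cell

set_option autoImplicit false

namespace Pool.Agent.V11331.BE

open MeasureTheory ProbabilityTheory Set Filter
open scoped NNReal ENNReal Topology

universe u

/-! ### general measurability lemmas (any measurable space) -/

section Gen
variable {Ω' : Type u} [MeasurableSpace Ω']

lemma meas_sample (v : ℝ → Ω' → ℝ) (hc : ∀ ω, Continuous (fun t => v t ω))
    (hm : ∀ t, Measurable (v t)) (σ : Ω' → ℝ) (hσ : Measurable σ) :
    Measurable (fun ω => v (σ ω) ω) := by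
  have h := measurable_uncurry_of_continuous_of_measurable (u := v) hc hm
  exact h.comp (hσ.prodMk measurable_id)

lemma meas_prog (t : ℝ) (v : ℝ → Ω' → ℝ) (hc : ∀ ω, Continuous (fun t => v t ω))
    (hm : ∀ s ∈ Icc 0 t, Measurable (v s)) :
    Measurable (fun q : Icc (0 : ℝ) t × Ω' => v q.1 q.2) := by
  have h := measurable_uncurry_of_continuous_of_measurable
    (u := fun (s : Icc (0 : ℝ) t) (ω : Ω') => v s ω)
    (fun ω => (hc ω).comp continuous_subtype_val) (fun s => hm s s.2)
  exact h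

lemma meas_all_pos (s : ℝ) (hs : 0 ≤ s) (y : ℝ → Ω' → ℝ)
    (hc : ∀ ω, ContinuousOn (fun t => y t ω) (Icc 0 s))
    (hm : ∀ u ∈ Icc 0 s, Measurable (y u)) :
    MeasurableSet {ω | ∀ u ∈ Icc 0 s, 0 < y u ω} := by
  have hcl : ∀ u : ℝ, max 0 (min u s) ∈ Icc 0 s := fun u =>
    ⟨le_max_left _ _, max_le hs (min_le_right _ _)⟩
  have hset : {ω | ∀ u ∈ Icc 0 s, 0 < y u ω} =
      ⋃ k : ℕ, ⋂ q : ℚ, {ω | 1 / ((k : ℝ) + 1) ≤ y (max 0 (min (q : ℝ) s)) ω} := by
    ext ω
    simp only [Set.mem_ofPred_eq, mem_iUnion, mem_iInter]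
    constructor
    · intro h
      obtain ⟨x, hx, hmin⟩ := isCompact_Icc.exists_isMinOn (nonempty_Icc.2 hs) (hc ω)
      obtain ⟨k, hk⟩ := exists_nat_one_div_lt (h x hx)
      exact ⟨k, fun q => hk.le.trans (hmin (hcl q))⟩
    · rintro ⟨k, hk⟩ u hu
      have hcc : Continuous (fun u : ℝ => y (max 0 (min u s)) ω) := by
        have h1 : Continuous (fun u : ℝ => (⟨max 0 (min u s), hcl u⟩ : Icc 0 s)) :=
          Continuous.subtype_mk (by fun_prop) _
        exact (continuousOn_iff_continuous_domRestrict.1 (hc ω)).comp h1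
      have hclosed : IsClosed {u : ℝ | 1 / ((k : ℝ) + 1) ≤ y (max 0 (min u s)) ω} :=
        isClosed_le continuous_const hcc
      have hdense : DenseRange ((↑) : ℚ → ℝ) := Rat.isDenseEmbedding_coe_real.dense
      have hall : ∀ u : ℝ, u ∈ {u : ℝ | 1 / ((k : ℝ) + 1) ≤ y (max 0 (min u s)) ω} :=
        fun u => hdense.induction_on (p := fun u => u ∈ {u : ℝ | 1 / ((k : ℝ) + 1) ≤
          y (max 0 (min u s)) ω}) u hclosed hk
      have h2 := hall u
      rw [Set.mem_ofPred_eq, min_eq_left hu.2, max_eq_right hu.1] at h2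
      have : (0 : ℝ) < 1 / ((k : ℝ) + 1) := by positivity
      linarith
  rw [hset]
  refine MeasurableSet.iUnion fun k => MeasurableSet.iInter fun q => ?_
  exact measurableSet_le measurable_const (hm _ (hcl q))

lemma meas_progZ (t : ℝ) (σ : Ω' → ℝ) (hσ : Measurable σ) (φ : ℝ → ℝ) (hφ : Measurable φ) :
    Measurable (fun q : Icc (0 : ℝ) t × Ω' => if (q.1 : ℝ) ≤ σ q.2 then φ q.1 else 0) := by
  have h1 : Measurable (fun q : Icc (0 : ℝ) t × Ω' => (q.1 : ℝ)) :=
    measurable_subtype_coe.comp measurable_fst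
  exact Measurable.ite (measurableSet_le h1 (hσ.comp measurable_snd)) (hφ.comp h1) measurable_const

lemma meas_of_Ioi (σ : Ω' → ℝ) (h : ∀ x, MeasurableSet {ω | x < σ ω}) : Measurable σ :=
  measurable_of_Ioi h

end Gen

variable {Ω : Type u} [mΩ : MeasurableSpace Ω]

/-- continuous adapted processes. -/
structure Adp (F : ℝ → MeasurableSpace Ω) (V : ℝ → Ω → ℝ) : Prop where
  cont : ∀ ω, Continuous (fun t => V t ω)
  meas : ∀ t, 0 ≤ t → Measurable[F t] (V t)

/-- the setting: a filtration and a continuous adapted process started at `0`. -/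
structure Setting (F : ℝ → MeasurableSpace Ω) (W : ℝ → Ω → ℝ) : Prop where
  mono : ∀ s t, s ≤ t → F s ≤ F t
  le : ∀ t, F t ≤ mΩ
  adp : Adp F W
  zero : ∀ ω, W 0 ω = 0

/-- the stopping time as a random variable -/
noncomputable def tauW (T c : ℝ) (W : ℝ → Ω → ℝ) (ω : Ω) : ℝ := tau T c (fun t => W t ω)

section
variable {F : ℝ → MeasurableSpace Ω} {W : ℝ → Ω → ℝ} (hS : Setting F W) {T c : ℝ} (hT : 0 < T)
  (hc : 0 < c)
include hS hT hc

lemma tauW_facts (ω : Ω) : 0 < tauW T c W ω ∧ tauW T c W ω < T ∧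
    xp T c (fun t => W t ω) (tauW T c W ω) = 0 ∧
      ∀ t, 0 ≤ t → t < tauW T c W ω → 0 < xp T c (fun t => W t ω) t :=
  tau_facts hT hc (hS.adp.cont ω) (hS.zero ω)

lemma meas_lt_tau {s : ℝ} (hs0 : 0 ≤ s) (hsT : s < T) :
    MeasurableSet[F s] {ω | s < tauW T c W ω} := by
  have h1 : {ω | s < tauW T c W ω} = {ω | ∀ u ∈ Icc 0 s, 0 < xp T c (fun t => W t ω) u} := by
    ext ω
    simp only [Set.mem_ofPred_eq]
    obtain ⟨h0, h1, h2, h3⟩ := tauW_facts hS hT hc ω
    constructor
    · intro h u hu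
      exact h3 u hu.1 (hu.2.trans_lt h)
    · intro h
      by_contra hcon
      push Not at hcon
      have := h _ ⟨h0.le, hcon⟩
      linarith
  rw [h1]
  refine @meas_all_pos Ω (F s) s hs0 (fun u ω => xp T c (fun t => W t ω) u) ?_ ?_
  · intro ω
    obtain ⟨N, hN⟩ := exists_tt hsT
    unfold xp
    exact (continuousOn_const.add (hS.adp.cont ω).continuousOn).sub
      ((continuousOn_St hT _ continuous_id N).mono (fun u hu => hu.2.trans hN))
  · intro u hu
    have h2 : Measurable[F s] (W u) := (hS.adp.meas u hu.1).mono (hS.mono u s hu.2) le_rfl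
    unfold xp
    exact (measurable_const.add h2).sub measurable_const

lemma meas_min_tau {t : ℝ} (ht0 : 0 ≤ t) (htT : t ≤ T) :
    Measurable[F t] (fun ω => min t (tauW T c W ω)) := by
  refine @meas_of_Ioi Ω (F t) _ (fun x => ?_)
  by_cases hx : x < t
  · by_cases hx0 : x < 0
    · have : {ω | x < min t (tauW T c W ω)} = univ := by
        ext ω
        simp only [Set.mem_ofPred_eq, mem_univ, iff_true, lt_min_iff]
        exact ⟨hx, hx0.trans (tauW_facts hS hT hc ω).1⟩
      rw [this]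
      exact @MeasurableSet.univ Ω (F t)
    · push Not at hx0
      have : {ω | x < min t (tauW T c W ω)} = {ω | x < tauW T c W ω} := by
        ext ω
        simp only [Set.mem_ofPred_eq, lt_min_iff]
        exact ⟨fun h => h.2, fun h => ⟨hx, h⟩⟩
      rw [this]
      exact hS.mono x t hx.le _ (meas_lt_tau hS hT hc hx0 (hx.trans_le htT))
  · have : {ω | x < min t (tauW T c W ω)} = ∅ := by
      ext ω
      simp only [Set.mem_ofPred_eq, mem_empty_iff_false, iff_false, lt_min_iff]
      exact fun h => hx h.1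
    rw [this]
    exact @MeasurableSet.empty Ω (F t)

/-- the stopped Stieltjes sum is adapted -/
lemma meas_St_stop (a : ℕ → ℝ) {V : ℝ → Ω → ℝ} (hV : Adp F V) {t : ℝ} (ht0 : 0 ≤ t)
    (htT : t ≤ T) :
    Measurable[F t] (fun ω => St T a (fun s => V s ω) (min t (tauW T c W ω))) := by
  have hterm : ∀ k, Measurable[F t]
      (fun ω => V (min (min t (tauW T c W ω)) (tt T k)) ω) := by
    intro k
    have h1 := @meas_sample Ω (F t) (fun u ω => V (max 0 (min u t)) ω)
      (fun ω => (hV.cont ω).comp (by fun_prop)) (fun u =>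
        (hV.meas _ (le_max_left _ _)).mono (hS.mono _ _ (max_le ht0 (min_le_right _ _))) le_rfl)
      (fun ω => min (min t (tauW T c W ω)) (tt T k))
      ((meas_min_tau hS hT hc ht0 htT).min measurable_const)
    have h2 : (fun ω => V (max 0 (min (min (min t (tauW T c W ω)) (tt T k)) t)) ω) =
        fun ω => V (min (min t (tauW T c W ω)) (tt T k)) ω := by
      funext ω
      have h3 : min (min (min t (tauW T c W ω)) (tt T k)) t =
          min (min t (tauW T c W ω)) (tt T k) :=
        min_eq_left ((min_le_left _ _).trans (min_le_left _ _))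
      have h4 : 0 ≤ min (min t (tauW T c W ω)) (tt T k) :=
        le_min (le_min ht0 (tauW_facts hS hT hc ω).1.le) (tt_nonneg hT k)
      rw [h3, max_eq_right h4]
    rw [h2] at h1
    exact h1
  refine @measurable_of_tendsto_metrizable Ω ℝ (F t) _ _ _ _ (fun (N : ℕ) ω =>
    ∑ n ∈ Finset.range N, a n * (V (min (min t (tauW T c W ω)) (tt T (n + 1))) ω -
      V (min (min t (tauW T c W ω)) (tt T n)) ω)) _ (fun N => ?_) ?_
  · exact Finset.measurable_fun_sum _ (fun n _ => ((hterm (n + 1)).sub (hterm n)).const_mul _)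
  · rw [tendsto_pi_nhds]
    intro ω
    obtain ⟨N, hN⟩ := exists_tt (tauW_facts hS hT hc ω).2.1
    refine tendsto_const_nhds.congr' ?_
    filter_upwards [eventually_ge_atTop N] with M hM
    exact St_eq hT a (fun s => V s ω)
      ((min_le_right t (tauW T c W ω)).trans (hN.trans (tt_mono hT hM)))

/-- the integrand is progressive -/
lemma prog_Z (a : ℕ → ℝ) :
    Prog T F (fun t ω => if t ≤ tauW T c W ω then Sp T a t else 0) := by
  intro t ht
  have h1 := meas_min_tau hS hT hc ht.1 ht.2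
  have h2 := @meas_progZ Ω (F t) t (fun ω => min t (tauW T c W ω)) h1 (Sp T a)
    (measurable_Sp T hT a)
  have h3 : (fun q : Icc (0 : ℝ) t × Ω => (if (q.1 : ℝ) ≤ tauW T c W q.2
      then Sp T a q.1 else 0)) = (fun q : Icc (0 : ℝ) t × Ω =>
        if (q.1 : ℝ) ≤ min t (tauW T c W q.2) then Sp T a q.1 else 0) := by
    funext q
    by_cases h : (q.1 : ℝ) ≤ tauW T c W q.2
    · rw [if_pos h, if_pos (le_min q.1.2.2 h)]
    · rw [if_neg h, if_neg (fun h' => h (h'.trans (min_le_right _ _)))]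
  rw [h3]
  exact h2

end

omit mΩ in
/-- continuous and adapted processes are progressive -/
lemma prog_of_cont {F : ℝ → MeasurableSpace Ω} (hmono : ∀ s t, s ≤ t → F s ≤ F t) {T : ℝ}
    (X : ℝ → Ω → ℝ) (hc : ∀ ω, Continuous (fun t => X t ω))
    (hm : ∀ t, 0 ≤ t → t ≤ T → Measurable[F t] (X t)) : Prog T F X := by
  intro t ht
  exact @meas_prog Ω (F t) t X hc (fun s hs =>
    (hm s hs.1 (hs.2.trans ht.2)).mono (hmono s t hs.2) le_rfl)

end Pool.Agent.V11331.BE
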