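import Pool.Agent.V11331.BE.Path

set_option autoImplicit false

namespace Pool.Agent.V11331.BE

open MeasureTheory ProbabilityTheory Set Filter
open scoped NNReal ENNReal Topology

/-- the `i`-th grid point in the stage `n`, at level `j`. -/
noncomputable def sc (T : ℝ) (j : ℕ) (n i : ℕ) : ℝ := tt T n + i * ((tt T (n + 1) - tt T n) / 2 ^ j)

/-- the index set of the cells. -/
def cells (j : ℕ) : Finset (ℕ × ℕ) := Finset.range j ×ˢ Finset.range (2 ^ j)

lemma sc_zero (T : ℝ) (j n : ℕ) : sc T j n 0 = tt T n := by simp [sc]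

lemma sc_last (T : ℝ) (j n : ℕ) : sc T j n (2 ^ j) = tt T (n + 1) := by
  unfold sc
  push_cast
  have : (2 : ℝ) ^ j ≠ 0 := by positivity
  field_simp
  ring

lemma sc_succ (T : ℝ) (j n i : ℕ) :
    sc T j n (i + 1) - sc T j n i = (tt T (n + 1) - tt T n) / 2 ^ j := by
  unfold sc; push_cast; ring

lemma sc_mono {T : ℝ} (hT : 0 < T) (j n : ℕ) {i k : ℕ} (h : i ≤ k) : sc T j n i ≤ sc T j n k := by
  unfold sc
  have h1 : 0 ≤ (tt T (n + 1) - tt T n) / 2 ^ j := by
    have := tt_lt_succ hT n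
    apply div_nonneg (by linarith) (by positivity)
  have h2 : (i : ℝ) ≤ k := by exact_mod_cast h
  nlinarith

lemma sc_lt_succ {T : ℝ} (hT : 0 < T) (j n i : ℕ) : sc T j n i < sc T j n (i + 1) := by
  have h := sc_succ T j n i
  have h1 : 0 < (tt T (n + 1) - tt T n) / 2 ^ j := by
    have := tt_lt_succ hT n
    apply div_pos (by linarith) (by positivity)
  linarith

lemma sc_mesh {T : ℝ} (hT : 0 < T) (j n i : ℕ) : sc T j n (i + 1) - sc T j n i ≤ T / 2 ^ j := by
  rw [sc_succ]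
  apply div_le_div_of_nonneg_right _ (by positivity)
  have := tt_lt hT (n + 1)
  have := tt_nonneg hT n
  linarith

lemma sc_ge {T : ℝ} (hT : 0 < T) (j n i : ℕ) : tt T n ≤ sc T j n i := by
  rw [← sc_zero T j n]; exact sc_mono hT j n (Nat.zero_le i)

lemma sc_le {T : ℝ} (hT : 0 < T) (j n : ℕ) {i : ℕ} (hi : i ≤ 2 ^ j) :
    sc T j n i ≤ tt T (n + 1) := by
  rw [← sc_last T j n]; exact sc_mono hT j n hi

lemma cell_unique {T : ℝ} (hT : 0 < T) (j : ℕ) {τ : ℝ} {c c' : ℕ × ℕ} (hc : c ∈ cells j)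
    (hc' : c' ∈ cells j) (h1 : sc T j c.1 c.2 < τ) (h2 : τ < sc T j c.1 (c.2 + 1))
    (h1' : sc T j c'.1 c'.2 < τ) (h2' : τ < sc T j c'.1 (c'.2 + 1)) : c = c' := by
  unfold cells at hc hc'
  rw [Finset.mem_product, Finset.mem_range, Finset.mem_range] at hc hc'
  have key : ∀ n n' : ℕ, tt T n < τ → τ < tt T (n' + 1) → n ≤ n' := by
    intro n n' h h'
    by_contra hcon
    push Not at hcon
    have : tt T (n' + 1) ≤ tt T n := tt_mono hT hcon
    linarith
  have a1 := (sc_ge hT j c.1 c.2).trans_lt h1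
  have a2 := h2.trans_le (sc_le hT j c.1 (i := c.2 + 1) hc.2)
  have a1' := (sc_ge hT j c'.1 c'.2).trans_lt h1'
  have a2' := h2'.trans_le (sc_le hT j c'.1 (i := c'.2 + 1) hc'.2)
  have e1 : c.1 = c'.1 := le_antisymm (key _ _ a1 a2') (key _ _ a1' a2)
  have key2 : ∀ i i' : ℕ, sc T j c.1 i < τ → τ < sc T j c.1 (i' + 1) → i ≤ i' := by
    intro i i' h h'
    by_contra hcon
    push Not at hcon
    have : sc T j c.1 (i' + 1) ≤ sc T j c.1 i := sc_mono hT j _ hcon
    linarith
  rw [← e1] at h1' h2'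
  have e2 : c.2 = c'.2 := le_antisymm (key2 _ _ h1 h2') (key2 _ _ h1' h2)
  exact Prod.ext e1 e2

lemma sum_cell_le {T : ℝ} (hT : 0 < T) (j : ℕ) (τ : ℝ) (F : ℕ × ℕ → ℝ) (Bd : ℝ) (hB : 0 ≤ Bd)
    (hF : ∀ c ∈ cells j, sc T j c.1 c.2 < τ → τ < sc T j c.1 (c.2 + 1) → F c ≤ Bd) :
    ∑ c ∈ cells j, (if sc T j c.1 c.2 < τ ∧ τ < sc T j c.1 (c.2 + 1) then F c else 0) ≤ Bd := by
  classical
  by_cases h : ∃ c ∈ cells j, sc T j c.1 c.2 < τ ∧ τ < sc T j c.1 (c.2 + 1)
  · obtain ⟨c0, hc0, h1, h2⟩ := h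
    rw [Finset.sum_eq_single c0]
    · rw [if_pos ⟨h1, h2⟩]
      exact hF c0 hc0 h1 h2
    · intro c hc hne
      rw [if_neg]
      rintro ⟨h3, h4⟩
      exact hne (cell_unique hT j hc hc0 h3 h4 h1 h2)
    · intro hcon
      exact absurd hc0 hcon
  · push Not at h
    rw [Finset.sum_eq_zero]
    · exact hB
    · intro c hc
      rw [if_neg]
      rintro ⟨h3, h4⟩
      have := h c hc h3
      linarith

/-- refinement of a stage sum into cells -/
lemma refine_sum (T : ℝ) (j n : ℕ) (φ : ℝ → ℝ) :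
    ∑ i ∈ Finset.range (2 ^ j), (φ (sc T j n (i + 1)) - φ (sc T j n i)) =
      φ (tt T (n + 1)) - φ (tt T n) := by
  rw [Finset.sum_range_sub (fun i => φ (sc T j n i)), sc_last, sc_zero]

lemma cells_sum (j : ℕ) (F : ℕ × ℕ → ℝ) :
    ∑ c ∈ cells j, F c = ∑ n ∈ Finset.range j, ∑ i ∈ Finset.range (2 ^ j), F (n, i) := by
  unfold cells
  rw [Finset.sum_product]

/-- comparison of the simple integral with the stopped integral -/
lemma sint_diff {T : ℝ} (hT : 0 < T) (a : ℕ → ℝ) (w : ℝ → ℝ) {j : ℕ} {τ t : ℝ}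
    (hτ : τ ≤ tt T j) :
    ∑ c ∈ cells j, (if sc T j c.1 c.2 < τ then a c.1 else 0) *
        (w (min (sc T j c.1 (c.2 + 1)) t) - w (min (sc T j c.1 c.2) t)) - St T a w (min t τ) =
      ∑ c ∈ cells j, (if sc T j c.1 c.2 < τ ∧ τ < sc T j c.1 (c.2 + 1) then
        a c.1 * (w (min (sc T j c.1 (c.2 + 1)) t) - w (min t τ)) else 0) := by
  have h1 : St T a w (min t τ) = ∑ c ∈ cells j, a c.1 *
      (w (min (min t τ) (sc T j c.1 (c.2 + 1))) - w (min (min t τ) (sc T j c.1 c.2))) := by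
    rw [St_eq hT a w ((min_le_right t τ).trans hτ), cells_sum]
    apply Finset.sum_congr rfl
    intro n _
    simp only
    rw [← Finset.mul_sum, refine_sum T j n (fun u => w (min (min t τ) u))]
  rw [h1, ← Finset.sum_sub_distrib]
  apply Finset.sum_congr rfl
  intro c _
  have hlt := sc_lt_succ hT j c.1 c.2
  set s := sc T j c.1 c.2
  set r := sc T j c.1 (c.2 + 1)
  by_cases hs : s < τ
  · rw [if_pos hs]
    by_cases hr : τ < r
    · rw [if_pos ⟨hs, hr⟩]
      have e1 : min (min t τ) r = min t τ := min_eq_left ((min_le_right _ _).trans hr.le)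
      have e2 : min (min t τ) s = min s t := by
        rw [min_assoc, min_eq_right hs.le, min_comm]
      rw [e1, e2]
      ring
    · push Not at hr
      rw [if_neg (fun h => absurd h.2 (not_lt.2 hr))]
      have e1 : min (min t τ) r = min r t := by
        rw [min_assoc, min_eq_right hr, min_comm]
      have e2 : min (min t τ) s = min s t := by
        rw [min_assoc, min_eq_right hs.le, min_comm]
      rw [e1, e2]
      ring
  · push Not at hs
    rw [if_neg (not_lt.2 hs), if_neg (fun h => absurd h.1 (not_lt.2 hs))]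
    have e1 : min (min t τ) r = min t τ :=
      min_eq_left ((min_le_right _ _).trans (hs.trans hlt.le))
    have e2 : min (min t τ) s = min t τ := min_eq_left ((min_le_right _ _).trans hs)
    rw [e1, e2]
    ring

/-- comparison of the simple integrand with the stopped integrand -/
lemma sval_diff {T : ℝ} (hT : 0 < T) (a : ℕ → ℝ) {j : ℕ} {τ s : ℝ}
    (hτ : τ ≤ tt T j) :
    ∑ c ∈ cells j, (if sc T j c.1 c.2 < s ∧ s ≤ sc T j c.1 (c.2 + 1) then
        (if sc T j c.1 c.2 < τ then a c.1 else 0) else 0) - (if s ≤ τ then Sp T a s else 0) =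
      ∑ c ∈ cells j, (if sc T j c.1 c.2 < τ ∧ τ < sc T j c.1 (c.2 + 1) then
        (if τ < s ∧ s ≤ sc T j c.1 (c.2 + 1) then a c.1 else 0) else 0) := by
  by_cases hs : s ≤ τ
  · rw [if_pos hs]
    have h1 : Sp T a s = ∑ c ∈ cells j,
        (if sc T j c.1 c.2 < s ∧ s ≤ sc T j c.1 (c.2 + 1) then a c.1 else 0) := by
      rw [Sp_eq hT a (hs.trans hτ), cells_sum]
      apply Finset.sum_congr rfl
      intro n _
      have hφ : ∀ u v : ℝ, u ≤ v → (if u < s ∧ s ≤ v then a n else 0) =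
          (fun y => if y < s then - a n else 0) v - (fun y => if y < s then - a n else 0) u := by
        intro u v huv
        simp only
        by_cases hv : v < s
        · rw [if_neg (fun h => absurd h.2 (not_le.2 hv)), if_pos hv, if_pos (huv.trans_lt hv),
            sub_self]
        · by_cases hu : u < s
          · rw [if_pos ⟨hu, not_lt.1 hv⟩, if_neg hv, if_pos hu]; ring
          · rw [if_neg (fun h => hu h.1), if_neg hv, if_neg hu, sub_self]
      have hr := refine_sum T j n (fun y => if y < s then - a n else 0)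
      rw [hφ _ _ (tt_lt_succ hT n).le, ← hr]
      apply Finset.sum_congr rfl
      intro i _
      rw [hφ _ _ (sc_lt_succ hT j n i).le]
    rw [h1, ← Finset.sum_sub_distrib]
    apply Finset.sum_congr rfl
    intro c _
    have h2 : (if sc T j c.1 c.2 < τ ∧ τ < sc T j c.1 (c.2 + 1) then
        (if τ < s ∧ s ≤ sc T j c.1 (c.2 + 1) then a c.1 else 0) else 0) = 0 := by
      split_ifs with h3 h4
      · exact absurd h4.1 (not_lt.2 hs)
      · rfl
      · rfl
    rw [h2]
    by_cases h3 : sc T j c.1 c.2 < s ∧ s ≤ sc T j c.1 (c.2 + 1)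
    · rw [if_pos h3, if_pos h3, if_pos (h3.1.trans_le hs), sub_self]
    · rw [if_neg h3, if_neg h3, sub_self]
  · push Not at hs
    rw [if_neg (not_le.2 hs), sub_zero]
    apply Finset.sum_congr rfl
    intro c _
    by_cases h1 : sc T j c.1 c.2 < τ
    · by_cases h2 : s ≤ sc T j c.1 (c.2 + 1)
      · rw [if_pos ⟨h1.trans hs, h2⟩, if_pos h1, if_pos ⟨h1, hs.trans_le h2⟩, if_pos ⟨hs, h2⟩]
      · rw [if_neg (fun h => h2 h.2)]
        by_cases h3 : sc T j c.1 c.2 < τ ∧ τ < sc T j c.1 (c.2 + 1)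
        · rw [if_pos h3, if_neg (fun h => h2 h.2)]
        · rw [if_neg h3]
    · rw [if_neg (fun h : sc T j c.1 c.2 < τ ∧ τ < sc T j c.1 (c.2 + 1) => h1 h.1), if_neg h1]
      split_ifs <;> rfl

end Pool.Agent.V11331.BE
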