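import Pool.Agent.V11331.BE.Adapt

set_option autoImplicit false

namespace Pool.Agent.V11331.BE

open MeasureTheory ProbabilityTheory Set Filter
open scoped NNReal ENNReal Topology

universe u

lemma meas_ite_const {Ω' : Type u} [MeasurableSpace Ω'] (p : Ω' → Prop) [DecidablePred p]
    (hp : MeasurableSet {ω | p ω}) (x : ℝ) : Measurable (fun ω => if p ω then x else 0) :=
  Measurable.ite hp measurable_const measurable_const

variable {Ω : Type u} [mΩ : MeasurableSpace Ω] {d : ℕ}

/-- the simple integrand at level `j`. -/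
noncomputable def Hj (T c : ℝ) (W : ℝ → Ω → ℝ) (i0 : Fin d) (a : ℕ → ℝ) (j : ℕ) :
    List (Blk Ω d) :=
  (cells j).toList.map fun k => ⟨sc T j k.1 k.2, sc T j k.1 (k.2 + 1), i0,
    fun ω => if sc T j k.1 k.2 < tauW T c W ω then a k.1 else 0⟩

omit mΩ in
lemma sval_Hj (T c : ℝ) (W : ℝ → Ω → ℝ) (i0 : Fin d) (a : ℕ → ℝ) (j : ℕ) (i : Fin d) (s : ℝ)
    (ω : Ω) : sval (Hj T c W i0 a j) i s ω = ∑ k ∈ cells j,
      (if i0 = i ∧ sc T j k.1 k.2 < s ∧ s ≤ sc T j k.1 (k.2 + 1) then
        (if sc T j k.1 k.2 < tauW T c W ω then a k.1 else 0) else 0) := by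
  unfold sval Hj
  rw [List.map_map, ← Finset.sum_map_toList]
  rfl

omit mΩ in
lemma sint_Hj (T c : ℝ) (W : ℝ → Ω → ℝ) (i0 : Fin d) (a : ℕ → ℝ) (j : ℕ)
    (X : Fin d → ℝ → Ω → ℝ) (t : ℝ) (ω : Ω) : sint X (Hj T c W i0 a j) t ω = ∑ k ∈ cells j,
      (if sc T j k.1 k.2 < tauW T c W ω then a k.1 else 0) *
        (X i0 (min (sc T j k.1 (k.2 + 1)) t) ω - X i0 (min (sc T j k.1 k.2) t) ω) := by
  unfold sint Hj
  rw [List.map_map, ← Finset.sum_map_toList]
  rfl

lemma tendsto_zero_of_bounds {f : ℕ → ℝ≥0∞} {g : ℕ → ℝ≥0∞} {r : ℕ → ℕ → ℝ≥0∞}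
    (hg : Tendsto g atTop (𝓝 0)) (hr : ∀ N, Tendsto (r N) atTop (𝓝 0))
    (h : ∀ N, ∀ᶠ j in atTop, f j ≤ g N + r N j) : Tendsto f atTop (𝓝 0) := by
  rw [ENNReal.tendsto_nhds_zero]
  intro ε hε
  have hε2 : 0 < ε / 2 := ENNReal.half_pos hε.ne'
  obtain ⟨N, hN⟩ := ((ENNReal.tendsto_nhds_zero.1 hg) (ε / 2) hε2).exists
  filter_upwards [h N, (ENNReal.tendsto_nhds_zero.1 (hr N)) (ε / 2) hε2] with j h1 h2
  calc f j ≤ g N + r N j := h1
    _ ≤ ε / 2 + ε / 2 := add_le_add hN h2
    _ = ε := ENNReal.add_halves ε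

section
variable {F : ℝ → MeasurableSpace Ω} {W : ℝ → Ω → ℝ} (hS : Setting F W) {T c : ℝ} (hT : 0 < T)
  (hc : 0 < c) (P : Measure Ω) [IsProbabilityMeasure P]
include hS hT hc

lemma tendsto_late : Tendsto (fun N => P {ω | tt T N < tauW T c W ω}) atTop (𝓝 0) := by
  have h := tendsto_measure_of_tendsto_indicator_of_isFiniteMeasure (L := atTop)
    (A := (∅ : Set Ω)) (As := fun N => {ω | tt T N < tauW T c W ω}) P
    (fun N => hS.le _ _ (meas_lt_tau hS hT hc (tt_nonneg hT N) (tt_lt hT N))) ?_
  · rwa [measure_empty] at h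
  · intro ω
    obtain ⟨N, hN⟩ := exists_tt (tauW_facts hS hT hc ω).2.1
    filter_upwards [eventually_ge_atTop N] with M hM
    simp only [mem_empty_iff_false, iff_false, not_lt]
    exact hN.trans (tt_mono hT hM)

omit hc in
/-- the oscillation event. -/
lemma tendsto_osc (η : ℝ) (hη : 0 < η) :
    Tendsto (fun j : ℕ => P {ω | ∃ p q : ℚ, |(p : ℝ) - q| < 2 * T / 2 ^ j ∧
      η < |W (max 0 (min (p : ℝ) T)) ω - W (max 0 (min (q : ℝ) T)) ω|}) atTop (𝓝 0) := by
  have hcl : ∀ u : ℝ, max 0 (min u T) ∈ Icc 0 T := fun u =>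
    ⟨le_max_left _ _, max_le hT.le (min_le_right _ _)⟩
  have h := tendsto_measure_of_tendsto_indicator_of_isFiniteMeasure (L := atTop)
    (A := (∅ : Set Ω)) (As := fun j : ℕ => {ω | ∃ p q : ℚ, |(p : ℝ) - q| < 2 * T / 2 ^ j ∧
      η < |W (max 0 (min (p : ℝ) T)) ω - W (max 0 (min (q : ℝ) T)) ω|}) P ?_ ?_
  · rwa [measure_empty] at h
  · intro j
    have : {ω | ∃ p q : ℚ, |(p : ℝ) - q| < 2 * T / 2 ^ j ∧
        η < |W (max 0 (min (p : ℝ) T)) ω - W (max 0 (min (q : ℝ) T)) ω|} =
        ⋃ p : ℚ, ⋃ q : ℚ, {ω | |(p : ℝ) - q| < 2 * T / 2 ^ j ∧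
        η < |W (max 0 (min (p : ℝ) T)) ω - W (max 0 (min (q : ℝ) T)) ω|} := by
      ext ω
      simp only [Set.mem_ofPred_eq, mem_iUnion]
    rw [this]
    refine MeasurableSet.iUnion fun p => MeasurableSet.iUnion fun q => ?_
    have hm : ∀ u : ℝ, Measurable (W (max 0 (min u T))) := fun u =>
      (hS.adp.meas _ (hcl u).1).mono (hS.le _) le_rfl
    exact (MeasurableSet.const _).inter
      (measurableSet_lt measurable_const ((hm _).sub (hm _)).abs)
  · intro ω
    have huc : UniformContinuousOn (fun t => W t ω) (Icc 0 T) :=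
      isCompact_Icc.uniformContinuousOn_of_continuous (hS.adp.cont ω).continuousOn
    rw [Metric.uniformContinuousOn_iff] at huc
    obtain ⟨δ, hδ, h⟩ := huc η hη
    have hlim : Tendsto (fun j : ℕ => 2 * T / 2 ^ j) atTop (𝓝 0) :=
      tendsto_const_nhds.div_atTop (tendsto_pow_atTop_atTop_of_one_lt (by norm_num))
    filter_upwards [hlim.eventually (gt_mem_nhds hδ)] with j hj
    simp only [mem_empty_iff_false, iff_false]
    rintro ⟨p, q, h1, h2⟩
    have h3 := h _ (hcl p) _ (hcl q) (by
      rw [Real.dist_eq]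
      have hlip : |max 0 (min (p : ℝ) T) - max 0 (min (q : ℝ) T)| ≤ |(p : ℝ) - q| := by
        have e1 := abs_max_sub_max_le_abs (min (p : ℝ) T) (min (q : ℝ) T) 0
        have e2 := abs_min_sub_min_le_max (p : ℝ) T q T
        rw [max_comm 0, max_comm 0]
        refine e1.trans (e2.trans ?_)
        rw [sub_self, abs_zero]
        exact max_le le_rfl (abs_nonneg _)
      linarith)
    rw [Real.dist_eq] at h3
    linarith

omit hc in
lemma osc_real {ω : Ω} {j : ℕ} {η : ℝ}
    (h : ¬ ∃ p q : ℚ, |(p : ℝ) - q| < 2 * T / 2 ^ j ∧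
      η < |W (max 0 (min (p : ℝ) T)) ω - W (max 0 (min (q : ℝ) T)) ω|) {x y : ℝ}
    (hx : x ∈ Icc 0 T) (hy : y ∈ Icc 0 T) (hxy : |x - y| ≤ T / 2 ^ j) :
    |W x ω - W y ω| ≤ η := by
  by_contra hcon
  push Not at hcon
  apply h
  have hcont : Continuous (fun z : ℝ × ℝ =>
      |W (max 0 (min z.1 T)) ω - W (max 0 (min z.2 T)) ω|) := by
    have h1 := hS.adp.cont ω
    exact ((h1.comp (by fun_prop)).sub (h1.comp (by fun_prop))).abs
  have hopen : IsOpen {z : ℝ × ℝ | |z.1 - z.2| < 2 * T / 2 ^ j ∧
      η < |W (max 0 (min z.1 T)) ω - W (max 0 (min z.2 T)) ω|} := by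
    have h1 : IsOpen {z : ℝ × ℝ | |z.1 - z.2| < 2 * T / 2 ^ j} :=
      isOpen_lt (by fun_prop) continuous_const
    exact h1.inter (isOpen_lt continuous_const hcont)
  have hne : {z : ℝ × ℝ | |z.1 - z.2| < 2 * T / 2 ^ j ∧
      η < |W (max 0 (min z.1 T)) ω - W (max 0 (min z.2 T)) ω|}.Nonempty := by
    refine ⟨(x, y), ?_, ?_⟩
    · simp only
      have : T / 2 ^ j < 2 * T / 2 ^ j := by
        apply div_lt_div_of_pos_right _ (by positivity)
        linarith
      linarith
    · simp only
      rw [min_eq_left hx.2, max_eq_right hx.1, min_eq_left hy.2, max_eq_right hy.1]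
      exact hcon
  have hd : DenseRange ((↑) : ℚ → ℝ) := Rat.isDenseEmbedding_coe_real.dense
  obtain ⟨z, hz⟩ := (hd.prodMap hd).exists_mem_open hopen hne
  exact ⟨z.1, z.2, hz.1, hz.2⟩

/-- the Itô integral of `a(s) 1_{s ≤ τ}`. -/
theorem isIto_main (B : Fin d → ℝ → Ω → ℝ) (i0 : Fin d)
    (hB : ∀ᵐ ω ∂P, ∀ t, 0 ≤ t → W t ω = B i0 t ω) (a : ℕ → ℝ) :
    IsIto T P F B (fun i t ω => if i = i0 then (if t ≤ tauW T c W ω then Sp T a t else 0) else 0)
      (fun t ω => St T a (fun s => W s ω) (min t (tauW T c W ω))) := by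
  refine ⟨Hj T c W i0 a, ?_, ?_, ?_⟩
  · intro j b hb
    unfold Hj at hb
    rw [List.mem_map] at hb
    obtain ⟨k, hk, rfl⟩ := hb
    rw [Finset.mem_toList] at hk
    unfold cells at hk
    rw [Finset.mem_product, Finset.mem_range, Finset.mem_range] at hk
    have h1 : 0 ≤ sc T j k.1 k.2 := (tt_nonneg hT k.1).trans (sc_ge hT j k.1 k.2)
    have h2 := sc_lt_succ hT j k.1 k.2
    have h3 : sc T j k.1 (k.2 + 1) ≤ tt T (k.1 + 1) := sc_le hT j k.1 hk.2
    have h4 := tt_lt hT (k.1 + 1)
    refine ⟨h1, h2.le, by simpa using h3.trans h4.le, ?_, |a k.1|, ?_⟩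
    · have hlt : sc T j k.1 k.2 < T := by linarith
      exact @meas_ite_const Ω (F (sc T j k.1 k.2)) (fun ω => sc T j k.1 k.2 < tauW T c W ω) _
        (meas_lt_tau hS hT hc h1 hlt) (a k.1)
    · intro ω
      simp only
      split_ifs
      · exact le_rfl
      · rw [abs_zero]; exact abs_nonneg _
  · intro ε hε
    refine tendsto_zero_of_bounds (tendsto_late hS hT hc P) (r := fun _ _ => 0)
      (fun N => tendsto_const_nhds) (fun N => ?_)
    set A : ℝ := ∑ n ∈ Finset.range N, |a n| with hA
    have hA0 : 0 ≤ A := Finset.sum_nonneg fun _ _ => abs_nonneg _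
    have hlim : Tendsto (fun j : ℕ => A ^ 2 * (T / 2 ^ j)) atTop (𝓝 (A ^ 2 * 0)) :=
      (tendsto_const_nhds.div_atTop (tendsto_pow_atTop_atTop_of_one_lt (by norm_num))).const_mul _
    rw [mul_zero] at hlim
    filter_upwards [hlim.eventually (gt_mem_nhds hε), eventually_ge_atTop N] with j hj hjN
    rw [add_zero]
    refine measure_mono fun ω hω => ?_
    rw [Set.mem_ofPred_eq] at hω ⊢
    by_contra hcon
    push Not at hcon
    set τ := tauW T c W ω with hτ
    have hτj : τ ≤ tt T j := hcon.trans (tt_mono hT hjN)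
    have hpt : ∀ s : ℝ, ENNReal.ofReal (∑ i, (sval (Hj T c W i0 a j) i s ω -
        (if i = i0 then (if s ≤ τ then Sp T a s else 0) else 0)) ^ 2) ≤
        (Ioc τ (τ + T / 2 ^ j)).indicator (fun _ => ENNReal.ofReal (A ^ 2)) s := by
      intro s
      have h1 : ∑ i, (sval (Hj T c W i0 a j) i s ω -
          (if i = i0 then (if s ≤ τ then Sp T a s else 0) else 0)) ^ 2 =
          (∑ k ∈ cells j, (if sc T j k.1 k.2 < τ ∧ τ < sc T j k.1 (k.2 + 1) then
            (if τ < s ∧ s ≤ sc T j k.1 (k.2 + 1) then a k.1 else 0) else 0)) ^ 2 := by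
        rw [Finset.sum_eq_single i0]
        · rw [if_pos rfl, sval_Hj, ← sval_diff hT a hτj]
          simp only [true_and]
          rfl
        · intro i _ hi
          rw [if_neg hi, sval_Hj]
          have : ∀ k ∈ cells j, (if i0 = i ∧ sc T j k.1 k.2 < s ∧ s ≤ sc T j k.1 (k.2 + 1) then
              (if sc T j k.1 k.2 < tauW T c W ω then a k.1 else 0) else 0) = 0 := by
            intro k _
            rw [if_neg]
            rintro ⟨h, -⟩
            exact hi h.symm
          rw [Finset.sum_eq_zero this]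
          norm_num
        · intro h
          exact absurd (Finset.mem_univ _) h
      rw [h1]
      set D := ∑ k ∈ cells j, (if sc T j k.1 k.2 < τ ∧ τ < sc T j k.1 (k.2 + 1) then
            (if τ < s ∧ s ≤ sc T j k.1 (k.2 + 1) then a k.1 else 0) else 0) with hD
      have hDle : |D| ≤ if τ < s ∧ s ≤ τ + T / 2 ^ j then A else 0 := by
        calc |D| ≤ ∑ k ∈ cells j, |(if sc T j k.1 k.2 < τ ∧ τ < sc T j k.1 (k.2 + 1) then
            (if τ < s ∧ s ≤ sc T j k.1 (k.2 + 1) then a k.1 else 0) else 0)| :=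
              Finset.abs_sum_le_sum_abs _ _
          _ = ∑ k ∈ cells j, (if sc T j k.1 k.2 < τ ∧ τ < sc T j k.1 (k.2 + 1) then
            (if τ < s ∧ s ≤ sc T j k.1 (k.2 + 1) then |a k.1| else 0) else 0) := by
              apply Finset.sum_congr rfl
              intro k _
              split_ifs <;> simp
          _ ≤ _ := by
              apply sum_cell_le hT j τ
              · split_ifs
                · exact hA0
                · exact le_rfl
              · intro k hk hk1 hk2
                by_cases hs : τ < s ∧ s ≤ sc T j k.1 (k.2 + 1)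
                · have hs2 : s ≤ τ + T / 2 ^ j := by
                    have := sc_mesh hT j k.1 k.2
                    linarith [hs.2]
                  rw [if_pos hs, if_pos ⟨hs.1, hs2⟩, hA]
                  have hkN : k.1 < N := by
                    by_contra hh
                    push Not at hh
                    have h3 := tt_mono hT hh
                    have h4 := sc_ge hT j k.1 k.2
                    linarith
                  exact Finset.single_le_sum (f := fun n => |a n|) (fun _ _ => abs_nonneg _)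
                    (Finset.mem_range.2 hkN)
                · rw [if_neg hs]
                  split_ifs
                  · exact hA0
                  · exact le_rfl
      by_cases hs : s ∈ Ioc τ (τ + T / 2 ^ j)
      · rw [Set.indicator_of_mem hs]
        apply ENNReal.ofReal_le_ofReal
        rw [if_pos (show τ < s ∧ s ≤ τ + T / 2 ^ j from hs)] at hDle
        rw [← sq_abs]
        exact pow_le_pow_left₀ (abs_nonneg _) hDle 2
      · rw [Set.indicator_of_notMem hs]
        rw [if_neg (show ¬ (τ < s ∧ s ≤ τ + T / 2 ^ j) from hs)] at hDle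
        have : D = 0 := abs_eq_zero.1 (le_antisymm hDle (abs_nonneg _))
        rw [this]
        norm_num
    have hint : ∫⁻ s in Icc (0 : ℝ) T, ENNReal.ofReal (∑ i, (sval (Hj T c W i0 a j) i s ω -
        (if i = i0 then (if s ≤ τ then Sp T a s else 0) else 0)) ^ 2) ≤
        ENNReal.ofReal (A ^ 2 * (T / 2 ^ j)) := by
      calc _ ≤ ∫⁻ s in Icc (0 : ℝ) T,
            (Ioc τ (τ + T / 2 ^ j)).indicator (fun _ => ENNReal.ofReal (A ^ 2)) s :=
            lintegral_mono hpt
        _ ≤ ∫⁻ s, (Ioc τ (τ + T / 2 ^ j)).indicator (fun _ => ENNReal.ofReal (A ^ 2)) s :=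
            setLIntegral_le_lintegral _ _
        _ = ENNReal.ofReal (A ^ 2) * volume (Ioc τ (τ + T / 2 ^ j)) := by
            rw [lintegral_indicator measurableSet_Ioc, setLIntegral_const]
        _ = _ := by
            rw [Real.volume_Ioc, add_sub_cancel_left, ← ENNReal.ofReal_mul (sq_nonneg _)]
    have hfin := hω.trans hint
    rw [ENNReal.ofReal_le_ofReal_iff (by positivity)] at hfin
    linarith
  · intro ε hε
    have hη : ∀ N : ℕ, 0 < ε / (2 * (∑ n ∈ Finset.range N, |a n| + 1)) := by
      intro N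
      have : 0 ≤ ∑ n ∈ Finset.range N, |a n| := Finset.sum_nonneg fun _ _ => abs_nonneg _
      positivity
    refine tendsto_zero_of_bounds (tendsto_late hS hT hc P)
      (fun N => tendsto_osc hS hT P (ε / (2 * (∑ n ∈ Finset.range N, |a n| + 1))) (hη N))
      (fun N => ?_)
    filter_upwards [eventually_ge_atTop N] with j hjN
    refine iSup₂_le fun t ht => ?_
    refine le_trans ?_ (measure_union_le _ _)
    refine measure_mono_ae ?_
    filter_upwards [hB] with ω hωB
    intro hω
    by_contra hcon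
    have hcon1 : ¬ (tt T N < tauW T c W ω) := fun h => hcon (Or.inl h)
    have hcon2 := fun h => hcon (Or.inr h)
    push Not at hcon1
    have hω' : ε ≤ |sint B (Hj T c W i0 a j) t ω -
      St T a (fun s => W s ω) (min t (tauW T c W ω))| := hω
    set τ := tauW T c W ω with hτ
    have hτj : τ ≤ tt T j := hcon1.trans (tt_mono hT hjN)
    have hτ0 : 0 < τ := (tauW_facts hS hT hc ω).1
    have hτT : τ < T := (tauW_facts hS hT hc ω).2.1
    set A : ℝ := ∑ n ∈ Finset.range N, |a n| with hA
    have hA0 : 0 ≤ A := Finset.sum_nonneg fun _ _ => abs_nonneg _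
    set η := ε / (2 * (A + 1)) with hηdef
    have hη0 : 0 < η := by positivity
    have hsint : sint B (Hj T c W i0 a j) t ω = ∑ k ∈ cells j,
        (if sc T j k.1 k.2 < τ then a k.1 else 0) *
        ((fun s => W s ω) (min (sc T j k.1 (k.2 + 1)) t) -
          (fun s => W s ω) (min (sc T j k.1 k.2) t)) := by
      rw [sint_Hj]
      apply Finset.sum_congr rfl
      intro k _
      have h0 := (tt_nonneg hT k.1).trans (sc_ge hT j k.1 k.2)
      have h0' := (tt_nonneg hT k.1).trans (sc_ge hT j k.1 (k.2 + 1))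
      rw [← hωB _ (le_min h0 ht.1), ← hωB _ (le_min h0' ht.1)]
    rw [hsint, sint_diff hT a (fun s => W s ω) hτj] at hω'
    have hle : |∑ k ∈ cells j, (if sc T j k.1 k.2 < τ ∧ τ < sc T j k.1 (k.2 + 1) then
        a k.1 * (W (min (sc T j k.1 (k.2 + 1)) t) ω - W (min t τ) ω) else 0)| ≤ A * η := by
      calc _ ≤ ∑ k ∈ cells j, |(if sc T j k.1 k.2 < τ ∧ τ < sc T j k.1 (k.2 + 1) then
            a k.1 * (W (min (sc T j k.1 (k.2 + 1)) t) ω - W (min t τ) ω) else 0)| :=
              Finset.abs_sum_le_sum_abs _ _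
        _ = ∑ k ∈ cells j, (if sc T j k.1 k.2 < τ ∧ τ < sc T j k.1 (k.2 + 1) then
            |a k.1 * (W (min (sc T j k.1 (k.2 + 1)) t) ω - W (min t τ) ω)| else 0) := by
              apply Finset.sum_congr rfl
              intro k _
              split_ifs <;> simp
        _ ≤ A * η := by
            apply sum_cell_le hT j τ _ _ (by positivity)
            intro k hk hk1 hk2
            rw [abs_mul]
            have hkN : k.1 < N := by
              by_contra hh
              push Not at hh
              have h3 := tt_mono hT hh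
              have h4 := sc_ge hT j k.1 k.2
              linarith
            have ha : |a k.1| ≤ A := Finset.single_le_sum (f := fun n => |a n|)
              (fun _ _ => abs_nonneg _) (Finset.mem_range.2 hkN)
            apply mul_le_mul ha _ (abs_nonneg _) hA0
            unfold cells at hk
            rw [Finset.mem_product, Finset.mem_range, Finset.mem_range] at hk
            have hr : sc T j k.1 (k.2 + 1) ≤ T :=
              (sc_le hT j k.1 (i := k.2 + 1) hk.2).trans (tt_lt hT _).le
            apply osc_real hS hT hcon2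
            · exact ⟨le_min (by linarith) ht.1, (min_le_right _ _).trans ht.2⟩
            · exact ⟨le_min ht.1 hτ0.le, (min_le_left _ _).trans ht.2⟩
            · have h5 := sc_mesh hT j k.1 k.2
              have e1 : |min (sc T j k.1 (k.2 + 1)) t - min t τ| ≤
                  |sc T j k.1 (k.2 + 1) - τ| := by
                rw [min_comm t τ]
                have := abs_min_sub_min_le_max (sc T j k.1 (k.2 + 1)) t τ t
                rw [sub_self, abs_zero] at this
                exact this.trans (max_le le_rfl (abs_nonneg _))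
              rw [abs_of_pos (by linarith : 0 < sc T j k.1 (k.2 + 1) - τ)] at e1
              linarith
    have hAη : A * η < ε := by
      rw [hηdef]
      have h1 : A * (ε / (2 * (A + 1))) = ε * (A / (2 * (A + 1))) := by ring
      rw [h1]
      have h2 : A / (2 * (A + 1)) < 1 := by
        rw [div_lt_one (by positivity)]; linarith
      nlinarith
    linarith

end

end Pool.Agent.V11331.BE
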