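import Pool.Agent.V11330.BMTools

set_option autoImplicit false

namespace Pool.Agent.V11331.BE

open MeasureTheory ProbabilityTheory Set Filter Pool.Agent.TH970 Pool.Agent.V11330.BMTools
open scoped NNReal ENNReal Topology

universe u

variable {Ω : Type u} [mΩ : MeasurableSpace Ω] {P : Measure Ω} [IsProbabilityMeasure P]
  {X : ℝ≥0 → Ω → ℝ}

lemma tail_am (hX : CBM P X) {T : ℝ≥0} (hT : 0 < T) (x : ℝ) :
    P {ω | x < am (path X ω) T} ≤ 4 * P {ω | x < |X T ω|} := by
  have h1 : {ω | x < am (path X ω) T} ⊆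
      {ω | x < mx (path X ω) 0 T} ∪ {ω | x < mx (path (-X) ω) 0 T} := by
    intro ω hω
    simp only [Set.mem_ofPred_eq] at hω
    unfold am at hω
    rw [lt_mx_iff (hX.cont ω).abs] at hω
    obtain ⟨s, hs, hx⟩ := hω
    rw [lt_abs] at hx
    rcases hx with h | h
    · left
      exact (lt_mx_iff (hX.cont ω)).2 ⟨s, hs, h⟩
    · right
      exact (lt_mx_iff ((CBM_neg hX).cont ω)).2 ⟨s, hs, h⟩
  have h2 := levy hX hT x
  have h3 := levy (CBM_neg hX) hT x
  have h4 : P {ω | x < X T ω} ≤ P {ω | x < |X T ω|} :=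
    measure_mono fun ω (hω : x < X T ω) => lt_of_lt_of_le hω (le_abs_self _)
  have h5 : P {ω | x < (-X) T ω} ≤ P {ω | x < |X T ω|} :=
    measure_mono fun ω (hω : x < -X T ω) => lt_of_lt_of_le hω (neg_le_abs _)
  calc P {ω | x < am (path X ω) T} ≤
      P ({ω | x < mx (path X ω) 0 T} ∪ {ω | x < mx (path (-X) ω) 0 T}) := measure_mono h1
    _ ≤ P {ω | x < mx (path X ω) 0 T} + P {ω | x < mx (path (-X) ω) 0 T} := measure_union_le _ _
    _ ≤ 2 * P {ω | x < |X T ω|} + 2 * P {ω | x < |X T ω|} := by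
        refine add_le_add (h2.trans ?_) (h3.trans ?_) <;> gcongr
    _ = 4 * P {ω | x < |X T ω|} := by rw [← add_mul]; norm_num

lemma measurable_amX (hX : CBM P X) (T : ℝ≥0) : Measurable (fun ω => am (path X ω) T) :=
  (measurable_am T).comp hX.mpath

/-- all moments of the maximum are finite. -/
lemma integrable_am (hX : CBM P X) {T : ℝ≥0} (hT : 0 < T) {q : ℝ} (hq : 0 < q) :
    Integrable (fun ω => (am (path X ω) T) ^ q) P := by
  have hnn : ∀ ω, 0 ≤ am (path X ω) T := fun ω => am_nonneg (hX.cont ω) T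
  have hm := measurable_amX hX T
  refine ⟨(hm.pow_const q).aestronglyMeasurable, ?_⟩
  rw [hasFiniteIntegral_iff_ofReal (Filter.Eventually.of_forall fun ω => Real.rpow_nonneg (hnn ω) q)]
  rw [lintegral_rpow_eq_lintegral_meas_lt_mul P (Filter.Eventually.of_forall hnn) hm.aemeasurable hq]
  have hfin : ∫⁻ ω, ENNReal.ofReal (|X T ω| ^ q) ∂P < ∞ := by
    have h1 : MemLp (X T) (ENNReal.ofReal q) P := by
      have hlaw := hX.pre.hasLaw_eval T
      have h2 : MemLp id (ENNReal.ofReal q) (P.map (X T)) := by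
        rw [hlaw.map_eq]
        exact IsGaussian.memLp_id _ _ ENNReal.ofReal_ne_top
      exact (memLp_map_measure_iff (by fun_prop) (hX.meas T).aemeasurable).1 h2
    have h2 := h1.integrable_norm_rpow (by simpa using hq) ENNReal.ofReal_ne_top
    rw [ENNReal.toReal_ofReal hq.le] at h2
    have h3 := h2.2
    rw [hasFiniteIntegral_iff_ofReal (Filter.Eventually.of_forall fun ω => by positivity)] at h3
    simpa using h3
  have hle : ∫⁻ t in Ioi (0 : ℝ), P {a | t < am (path X a) T} * ENNReal.ofReal (t ^ (q - 1)) ≤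
      4 * ∫⁻ t in Ioi (0 : ℝ), P {a | t < |X T a|} * ENNReal.ofReal (t ^ (q - 1)) := by
    rw [← lintegral_const_mul' _ _ (by norm_num)]
    refine lintegral_mono fun t => ?_
    rw [← mul_assoc]
    gcongr
    exact tail_am hX hT t
  have h4 := lintegral_rpow_eq_lintegral_meas_lt_mul P (f := fun ω => |X T ω|)
    (Filter.Eventually.of_forall fun ω => abs_nonneg _) (hX.meas T).abs.aemeasurable hq
  calc ENNReal.ofReal q *
        ∫⁻ t in Ioi (0 : ℝ), P {a | t < am (path X a) T} * ENNReal.ofReal (t ^ (q - 1))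
      ≤ ENNReal.ofReal q *
        (4 * ∫⁻ t in Ioi (0 : ℝ), P {a | t < |X T a|} * ENNReal.ofReal (t ^ (q - 1))) := by
        gcongr
    _ = 4 * ∫⁻ ω, ENNReal.ofReal (|X T ω| ^ q) ∂P := by rw [h4]; ring
    _ < ∞ := ENNReal.mul_lt_top (by norm_num) hfin

end Pool.Agent.V11331.BE
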