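import Pool.Agent.V11331.BE.Core

set_option autoImplicit false

namespace Pool.Agent.V11331.BE

open MeasureTheory ProbabilityTheory Set Filter
open scoped NNReal ENNReal Topology

/-- the grid -/
noncomputable def tt (T : ℝ) (n : ℕ) : ℝ := T * (1 - (1 / 2) ^ n)

lemma tt_zero (T : ℝ) : tt T 0 = 0 := by simp [tt]

lemma tt_sub (T : ℝ) (n : ℕ) : tt T (n + 1) - tt T n = T * (1 / 2) ^ (n + 1) := by
  unfold tt; rw [pow_succ]; ring

lemma tt_lt_succ {T : ℝ} (hT : 0 < T) (n : ℕ) : tt T n < tt T (n + 1) := by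
  have := tt_sub T n
  have h : 0 < T * (1 / 2) ^ (n + 1) := by positivity
  linarith

lemma tt_strictMono {T : ℝ} (hT : 0 < T) : StrictMono (tt T) :=
  strictMono_nat_of_lt_succ (tt_lt_succ hT)

lemma tt_mono {T : ℝ} (hT : 0 < T) {m n : ℕ} (h : m ≤ n) : tt T m ≤ tt T n :=
  (tt_strictMono hT).monotone h

lemma tt_nonneg {T : ℝ} (hT : 0 < T) (n : ℕ) : 0 ≤ tt T n := by
  rw [← tt_zero T]; exact tt_mono hT (Nat.zero_le n)

lemma tt_lt {T : ℝ} (hT : 0 < T) (n : ℕ) : tt T n < T := by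
  unfold tt
  have : (0 : ℝ) < (1 / 2) ^ n := by positivity
  nlinarith

lemma tendsto_tt (T : ℝ) : Tendsto (tt T) atTop (𝓝 T) := by
  have h : Tendsto (fun n : ℕ => (1 / 2 : ℝ) ^ n) atTop (𝓝 0) :=
    tendsto_pow_atTop_nhds_zero_of_lt_one (by norm_num) (by norm_num)
  have := (tendsto_const_nhds (x := T)).mul ((tendsto_const_nhds (x := (1 : ℝ))).sub h)
  rw [sub_zero, mul_one] at this
  exact this

lemma exists_tt {T t : ℝ} (ht : t < T) : ∃ N, t ≤ tt T N := by
  have := (tendsto_tt T).eventually (eventually_gt_nhds ht)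
  obtain ⟨N, hN⟩ := this.exists
  exact ⟨N, hN.le⟩

/-- stagewise Stieltjes sum: `∑ a n (f(t ∧ t_{n+1}) - f(t ∧ t_n))`. -/
noncomputable def St (T : ℝ) (a : ℕ → ℝ) (f : ℝ → ℝ) (t : ℝ) : ℝ :=
  ∑' n, a n * (f (min t (tt T (n + 1))) - f (min t (tt T n)))

/-- step function with value `a n` on `(t_n, t_{n+1}]`. -/
noncomputable def Sp (T : ℝ) (a : ℕ → ℝ) (s : ℝ) : ℝ :=
  ∑' n, if tt T n < s ∧ s ≤ tt T (n + 1) then a n else 0

lemma St_eq {T : ℝ} (hT : 0 < T) (a : ℕ → ℝ) (f : ℝ → ℝ) {t : ℝ} {N : ℕ} (h : t ≤ tt T N) :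
    St T a f t = ∑ n ∈ Finset.range N, a n * (f (min t (tt T (n + 1))) - f (min t (tt T n))) := by
  unfold St
  apply tsum_eq_sum
  intro n hn
  rw [Finset.mem_range, not_lt] at hn
  have h1 : t ≤ tt T n := h.trans (tt_mono hT hn)
  have h2 : t ≤ tt T (n + 1) := h1.trans (tt_lt_succ hT n).le
  rw [min_eq_left h1, min_eq_left h2, sub_self, mul_zero]

lemma Sp_eq {T : ℝ} (hT : 0 < T) (a : ℕ → ℝ) {s : ℝ} {N : ℕ} (h : s ≤ tt T N) :
    Sp T a s = ∑ n ∈ Finset.range N, if tt T n < s ∧ s ≤ tt T (n + 1) then a n else 0 := by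
  unfold Sp
  apply tsum_eq_sum
  intro n hn
  rw [Finset.mem_range, not_lt] at hn
  rw [if_neg]
  rintro ⟨h1, -⟩
  exact absurd (h.trans (tt_mono hT hn)) (not_le.2 h1)

lemma Sp_zero_of_ge {T : ℝ} (hT : 0 < T) (a : ℕ → ℝ) {s : ℝ} (h : T ≤ s) : Sp T a s = 0 := by
  unfold Sp
  have : ∀ n, (if tt T n < s ∧ s ≤ tt T (n + 1) then a n else 0) = 0 := by
    intro n
    rw [if_neg]
    rintro ⟨-, h1⟩
    have := tt_lt hT (n + 1)
    linarith
  simp only [this, tsum_zero]

/-- the value of the step function on a stage. -/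
lemma Sp_stage {T : ℝ} (hT : 0 < T) (a : ℕ → ℝ) {s : ℝ} {n : ℕ} (h1 : tt T n < s)
    (h2 : s ≤ tt T (n + 1)) : Sp T a s = a n := by
  rw [Sp_eq hT a h2, Finset.sum_eq_single n]
  · rw [if_pos ⟨h1, h2⟩]
  · intro m hm hmn
    rw [Finset.mem_range] at hm
    rw [if_neg]
    rintro ⟨-, h4⟩
    have : tt T (m + 1) ≤ tt T n := tt_mono hT (by omega)
    linarith
  · intro h
    exact absurd (Finset.mem_range.2 (by omega)) h

lemma exists_stage {T : ℝ} {s : ℝ} (h0 : 0 < s) (h1 : s < T) :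
    ∃ n, tt T n < s ∧ s ≤ tt T (n + 1) := by
  classical
  have hex := exists_tt h1
  set N := Nat.find hex with hN
  have hspec : s ≤ tt T N := Nat.find_spec hex
  have hN0 : N ≠ 0 := by
    intro h
    rw [h, tt_zero] at hspec
    linarith
  obtain ⟨n, hn⟩ := Nat.exists_eq_succ_of_ne_zero hN0
  refine ⟨n, ?_, ?_⟩
  · have := Nat.find_min hex (m := n) (by omega)
    exact not_le.1 this
  · rw [hn] at hspec; exact hspec

lemma measurable_Sp (T : ℝ) (hT : 0 < T) (a : ℕ → ℝ) : Measurable (Sp T a) := by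
  have h : ∀ s, Sp T a s = ∑' n, if tt T n < s ∧ s ≤ tt T (n + 1) then a n else 0 := fun _ => rfl
  refine measurable_of_tendsto_metrizable (f := fun (N : ℕ) (s : ℝ) =>
    ∑ n ∈ Finset.range N, if tt T n < s ∧ s ≤ tt T (n + 1) then a n else 0) (fun N => ?_) ?_
  · refine Finset.measurable_fun_sum _ (fun n _ => ?_)
    exact Measurable.ite ((measurableSet_lt measurable_const measurable_id).inter
      (measurableSet_le measurable_id measurable_const)) measurable_const measurable_const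
  · rw [tendsto_pi_nhds]
    intro s
    rcases lt_or_ge s T with hs | hs
    · obtain ⟨N, hN⟩ := exists_tt hs
      refine tendsto_const_nhds.congr' ?_
      filter_upwards [eventually_ge_atTop N] with M hM
      exact Sp_eq hT a (hN.trans (tt_mono hT hM))
    · rw [Sp_zero_of_ge hT a hs]
      refine tendsto_const_nhds.congr' (Filter.Eventually.of_forall fun M => ?_)
      symm
      apply Finset.sum_eq_zero
      intro n _
      rw [if_neg]
      rintro ⟨-, h1⟩
      have := tt_lt hT (n + 1)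
      linarith

/-- continuity of the stopped Stieltjes sum -/
lemma continuous_St_stop {T : ℝ} (hT : 0 < T) (a : ℕ → ℝ) {f : ℝ → ℝ} (hf : Continuous f)
    {τ : ℝ} (hτ : τ < T) : Continuous (fun t => St T a f (min t τ)) := by
  obtain ⟨N, hN⟩ := exists_tt hτ
  have h : (fun t => St T a f (min t τ)) = fun t => ∑ n ∈ Finset.range N,
      a n * (f (min (min t τ) (tt T (n + 1))) - f (min (min t τ) (tt T n))) := by
    funext t
    exact St_eq hT a f ((min_le_right _ _).trans hN)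
  rw [h]
  fun_prop

lemma continuousOn_St {T : ℝ} (hT : 0 < T) (a : ℕ → ℝ) {f : ℝ → ℝ} (hf : Continuous f) (N : ℕ) :
    ContinuousOn (St T a f) (Iic (tt T N)) := by
  have h : ContinuousOn (fun t => ∑ n ∈ Finset.range N,
      a n * (f (min t (tt T (n + 1))) - f (min t (tt T n)))) (Iic (tt T N)) := by
    apply Continuous.continuousOn
    fun_prop
  exact h.congr (fun t ht => St_eq hT a f ht)

lemma St_add {T : ℝ} (hT : 0 < T) (a b : ℕ → ℝ) (f : ℝ → ℝ) {t : ℝ} (ht : t < T) :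
    St T (fun n => a n + b n) f t = St T a f t + St T b f t := by
  obtain ⟨N, hN⟩ := exists_tt ht
  rw [St_eq hT _ f hN, St_eq hT _ f hN, St_eq hT _ f hN, ← Finset.sum_add_distrib]
  apply Finset.sum_congr rfl; intros; ring

lemma St_one {T : ℝ} (hT : 0 < T) (f : ℝ → ℝ) {t : ℝ} (ht0 : 0 ≤ t) (ht : t < T) :
    St T (fun _ => 1) f t = f t - f 0 := by
  obtain ⟨N, hN⟩ := exists_tt ht
  rw [St_eq hT _ f hN]
  simp only [one_mul]
  rw [Finset.sum_range_sub (fun n => f (min t (tt T n))), tt_zero, min_eq_left hN, min_eq_right ht0]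

/-- integral of the step function. -/
lemma integral_Sp {T : ℝ} (hT : 0 < T) (b : ℕ → ℝ) {τ t : ℝ} (hτ : τ < T) (hτ0 : 0 ≤ τ)
    (ht : 0 ≤ t) :
    IntervalIntegrable (fun s => if s ≤ τ then Sp T b s else 0) volume 0 t ∧
    ∫ s in (0 : ℝ)..t, (if s ≤ τ then Sp T b s else 0) = St T b id (min t τ) := by
  obtain ⟨N, hN⟩ := exists_tt hτ
  have h1 : ∀ s, (if s ≤ τ then Sp T b s else 0) = ∑ n ∈ Finset.range N,
      (Ioc (tt T n) (min τ (tt T (n + 1)))).indicator (fun _ => b n) s := by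
    intro s
    by_cases hs : s ≤ τ
    · rw [if_pos hs, Sp_eq hT b (hs.trans hN)]
      apply Finset.sum_congr rfl
      intro n _
      rw [Set.indicator_apply]
      by_cases h : tt T n < s ∧ s ≤ tt T (n + 1)
      · rw [if_pos h, if_pos ⟨h.1, le_min hs h.2⟩]
      · rw [if_neg h, if_neg]
        rintro ⟨h3, h4⟩
        exact h ⟨h3, h4.trans (min_le_right _ _)⟩
    · rw [if_neg hs]
      symm
      apply Finset.sum_eq_zero
      intro n _
      rw [Set.indicator_of_notMem]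
      rintro ⟨-, h4⟩
      exact hs (h4.trans (min_le_left _ _))
  have hint : ∀ n, IntervalIntegrable
      ((Ioc (tt T n) (min τ (tt T (n + 1)))).indicator (fun _ => b n)) volume 0 t := by
    intro n
    rw [intervalIntegrable_iff]
    apply Integrable.integrableOn
    rw [integrable_indicator_iff measurableSet_Ioc]
    exact integrableOn_const (by rw [Real.volume_Ioc]; exact ENNReal.ofReal_ne_top)
  constructor
  · simp only [h1]
    have := IntervalIntegrable.sum (Finset.range N) (fun n _ => hint n)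
    exact this.congr (fun s _ => by simp only [Finset.sum_apply])
  · simp only [h1]
    rw [intervalIntegral.integral_finsetSum (fun n _ => hint n),
      St_eq hT b id ((min_le_right t τ).trans hN)]
    apply Finset.sum_congr rfl
    intro n _
    rw [intervalIntegral.integral_of_le ht, ← integral_indicator measurableSet_Ioc,
      Set.indicator_indicator, integral_indicator (measurableSet_Ioc.inter measurableSet_Ioc),
      setIntegral_const, Ioc_inter_Ioc, Measure.real, Real.volume_Ioc, smul_eq_mul, mul_comm]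
    congr 1
    have htn := tt_nonneg hT n
    have htn1 := tt_lt_succ hT n
    rw [max_eq_right htn]
    simp only [id]
    have e : min t (min τ (tt T (n + 1))) = min (min t τ) (tt T (n + 1)) := (min_assoc _ _ _).symm
    rw [e]
    rcases le_total (min t τ) (tt T n) with h | h
    · rw [min_eq_left h, min_eq_left (h.trans htn1.le), sub_self,
        ENNReal.ofReal_of_nonpos (by linarith), ENNReal.toReal_zero]
    · rw [min_eq_right h, ENNReal.toReal_ofReal]
      have : tt T n ≤ min (min t τ) (tt T (n + 1)) := le_min h htn1.le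
      linarith


/-! ### the stopping time -/

/-- `κ_n = c 4 ^ n` -/
noncomputable def kap (c : ℝ) (n : ℕ) : ℝ := c * 4 ^ n

/-- the drifted path `1 + w(t) - K(t)`. -/
noncomputable def xp (T c : ℝ) (w : ℝ → ℝ) (t : ℝ) : ℝ := 1 + w t - St T (kap c) id t

/-- first zero of the drifted path. -/
noncomputable def tau (T c : ℝ) (w : ℝ → ℝ) : ℝ := sInf {t | 0 ≤ t ∧ t < T ∧ xp T c w t ≤ 0}

lemma St_kap {T : ℝ} (hT : 0 < T) (c : ℝ) (N : ℕ) :
    St T (kap c) id (tt T N) = c * T / 2 * (2 ^ N - 1) := by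
  rw [St_eq hT (kap c) id le_rfl]
  have : ∀ n ∈ Finset.range N, kap c n * (id (min (tt T N) (tt T (n + 1))) -
      id (min (tt T N) (tt T n))) = c * T / 2 * 2 ^ n := by
    intro n hn
    rw [Finset.mem_range] at hn
    rw [min_eq_right (tt_mono hT hn), min_eq_right (tt_mono hT hn.le)]
    simp only [id]
    rw [tt_sub]
    unfold kap
    have h4 : (4 : ℝ) ^ n = 2 ^ n * 2 ^ n := by rw [← mul_pow]; norm_num
    have h2 : (1 / 2 : ℝ) ^ (n + 1) * 2 ^ n = 1 / 2 := by
      rw [pow_succ, mul_right_comm, ← mul_pow]; norm_num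
    rw [h4]
    calc c * (2 ^ n * 2 ^ n) * (T * (1 / 2) ^ (n + 1)) =
        c * T * 2 ^ n * ((1 / 2) ^ (n + 1) * 2 ^ n) := by ring
      _ = _ := by rw [h2]; ring
  rw [Finset.sum_congr rfl this, ← Finset.mul_sum, geom_sum_eq (by norm_num)]
  norm_num

lemma tau_facts {T : ℝ} (hT : 0 < T) {c : ℝ} (hc : 0 < c) {w : ℝ → ℝ} (hw : Continuous w)
    (hw0 : w 0 = 0) :
    0 < tau T c w ∧ tau T c w < T ∧ xp T c w (tau T c w) = 0 ∧
      ∀ t, 0 ≤ t → t < tau T c w → 0 < xp T c w t := by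
  set Γ := {t | 0 ≤ t ∧ t < T ∧ xp T c w t ≤ 0} with hΓ
  -- bound for `w`
  obtain ⟨C, hC⟩ : ∃ C, ∀ t ∈ Icc 0 T, w t ≤ C := by
    obtain ⟨x, _, hx⟩ := isCompact_Icc.exists_isMaxOn (nonempty_Icc.2 hT.le) hw.continuousOn
    exact ⟨w x, fun t ht => hx ht⟩
  obtain ⟨N, hN⟩ : ∃ N : ℕ, 1 + C < c * T / 2 * (2 ^ N - 1) := by
    have h1 : Tendsto (fun N : ℕ => c * T / 2 * ((2 : ℝ) ^ N - 1)) atTop atTop := by
      apply Tendsto.const_mul_atTop (by positivity)
      exact tendsto_atTop_add_const_right _ _ (tendsto_pow_atTop_atTop_of_one_lt (by norm_num))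
    exact (h1.eventually (eventually_gt_atTop (1 + C))).exists
  have hcont : ContinuousOn (xp T c w) (Iic (tt T N)) := by
    unfold xp
    exact (continuousOn_const.add hw.continuousOn).sub (continuousOn_St hT _ continuous_id N)
  have hNmem : xp T c w (tt T N) ≤ 0 := by
    unfold xp
    rw [St_kap hT]
    have := hC (tt T N) ⟨tt_nonneg hT N, (tt_lt hT N).le⟩
    linarith
  set Γ' := {t ∈ Icc 0 (tt T N) | xp T c w t ≤ 0} with hΓ'
  have hcomp : IsCompact Γ' := by
    have hcl : IsClosed Γ' := by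
      have h1 : ContinuousOn (xp T c w) (Icc 0 (tt T N)) := hcont.mono (fun t ht => ht.2)
      exact h1.preimage_isClosed_of_isClosed isClosed_Icc isClosed_Iic
    exact isCompact_Icc.of_isClosed_subset hcl (fun t ht => ht.1)
  have hne : Γ'.Nonempty := ⟨tt T N, ⟨tt_nonneg hT N, le_rfl⟩, hNmem⟩
  obtain ⟨τ, hτ⟩ := hcomp.exists_isLeast hne
  have hleast : IsLeast Γ τ := by
    refine ⟨⟨hτ.1.1.1, hτ.1.1.2.trans_lt (tt_lt hT N), hτ.1.2⟩, ?_⟩
    intro t ht
    rcases le_total t (tt T N) with h | h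
    · exact hτ.2 ⟨⟨ht.1, h⟩, ht.2.2⟩
    · exact hτ.1.1.2.trans h
  have heq : tau T c w = τ := hleast.csInf_eq
  have hpos : ∀ t, 0 ≤ t → t < τ → 0 < xp T c w t := by
    intro t h0 h1
    by_contra hcon
    push Not at hcon
    have := hleast.2 (show t ∈ Γ from ⟨h0, h1.trans hleast.1.2.1, hcon⟩)
    linarith
  have hx0 : xp T c w 0 = 1 := by
    unfold xp
    have : St T (kap c) id 0 = 0 := by
      rw [St_eq hT (kap c) id (N := 0) (by rw [tt_zero])]
      simp
    rw [this, hw0]; norm_num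
  have hτ0 : 0 < τ := by
    rcases hleast.1.1.lt_or_eq with h | h
    · exact h
    · exfalso
      have := hleast.1.2.2
      rw [← h, hx0] at this
      linarith
  have hxτ : xp T c w τ = 0 := by
    apply le_antisymm hleast.1.2.2
    by_contra hcon
    push Not at hcon
    have h1 : ContinuousOn (xp T c w) (Icc 0 τ) := hcont.mono (fun t ht => ht.2.trans hτ.1.1.2)
    have h2 := intermediate_value_Icc' hτ0.le h1
    have h3 : (0 : ℝ) ∈ Icc (xp T c w τ) (xp T c w 0) := ⟨hcon.le, by rw [hx0]; norm_num⟩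
    obtain ⟨s, hs, hs0⟩ := h2 h3
    have h4 := hleast.2 (show s ∈ Γ from ⟨hs.1, hs.2.trans_lt hleast.1.2.1, hs0.le⟩)
    have h5 : s = τ := le_antisymm hs.2 h4
    rw [h5] at hs0
    linarith
  rw [heq]
  exact ⟨hτ0, hleast.1.2.1, hxτ, hpos⟩

/-- deterministic bound: the number of stages started before `τ` is controlled by the maximum. -/
lemma exists_stage_bound {T : ℝ} (hT : 0 < T) {c : ℝ} (hc : 0 < c) {w : ℝ → ℝ} (hw : Continuous w)
    (hw0 : w 0 = 0) {m : ℝ} (hm0 : 0 ≤ m) (hm : ∀ t ∈ Icc 0 T, |w t| ≤ m) :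
    ∃ N : ℕ, tau T c w ≤ tt T N ∧ (2 : ℝ) ^ N ≤ 2 * (1 + 2 / (c * T)) * (1 + m) := by
  obtain ⟨h0, h1, -, h3⟩ := tau_facts hT hc hw hw0
  obtain ⟨n, hn1, hn2⟩ := exists_stage h0 h1
  refine ⟨n + 1, hn2, ?_⟩
  have h4 := h3 (tt T n) (tt_nonneg hT n) hn1
  unfold xp at h4
  rw [St_kap hT] at h4
  have h5 := hm (tt T n) ⟨tt_nonneg hT n, (tt_lt hT n).le⟩
  have h6 := le_abs_self (w (tt T n))
  have h7 : c * T / 2 * (2 ^ n - 1) < 1 + m := by linarith
  have hcT : 0 < c * T := by positivity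
  have h8 : (2 : ℝ) ^ n - 1 < 2 / (c * T) * (1 + m) := by
    have : c * T / 2 * ((2 : ℝ) ^ n - 1) * (2 / (c * T)) < (1 + m) * (2 / (c * T)) :=
      mul_lt_mul_of_pos_right h7 (by positivity)
    have e : c * T / 2 * ((2 : ℝ) ^ n - 1) * (2 / (c * T)) = 2 ^ n - 1 := by
      field_simp
    rw [e] at this
    linarith
  rw [pow_succ]
  nlinarith

lemma abs_St_le {T : ℝ} (hT : 0 < T) {a : ℕ → ℝ} {A : ℝ} (ha : ∀ n, |a n| ≤ A * 4 ^ n)
    {f : ℝ → ℝ} {m : ℝ} (hm0 : 0 ≤ m) (hA : 0 ≤ A) (hm : ∀ t ∈ Icc 0 T, |f t| ≤ m) {t : ℝ} {N : ℕ}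
    (ht0 : 0 ≤ t) (htN : t ≤ tt T N) : |St T a f t| ≤ A * (2 ^ N) ^ 2 * (2 * m) := by
  rw [St_eq hT a f htN]
  have htT : t ≤ T := htN.trans (tt_lt hT N).le
  have hmem : ∀ n, min t (tt T n) ∈ Icc 0 T := fun n =>
    ⟨le_min ht0 (tt_nonneg hT n), (min_le_left _ _).trans htT⟩
  calc |∑ n ∈ Finset.range N, a n * (f (min t (tt T (n + 1))) - f (min t (tt T n)))|
      ≤ ∑ n ∈ Finset.range N, |a n * (f (min t (tt T (n + 1))) - f (min t (tt T n)))| :=
        Finset.abs_sum_le_sum_abs _ _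
    _ ≤ ∑ n ∈ Finset.range N, A * 4 ^ n * (2 * m) := by
        apply Finset.sum_le_sum
        intro n _
        rw [abs_mul]
        apply mul_le_mul (ha n) _ (abs_nonneg _) (by positivity)
        calc |f (min t (tt T (n + 1))) - f (min t (tt T n))| ≤
            |f (min t (tt T (n + 1)))| + |f (min t (tt T n))| := abs_sub _ _
          _ ≤ m + m := add_le_add (hm _ (hmem _)) (hm _ (hmem _))
          _ = 2 * m := by ring
    _ = A * (∑ n ∈ Finset.range N, (4 : ℝ) ^ n) * (2 * m) := by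
        rw [Finset.mul_sum, Finset.sum_mul]
    _ ≤ A * (2 ^ N) ^ 2 * (2 * m) := by
        apply mul_le_mul_of_nonneg_right _ (by positivity)
        apply mul_le_mul_of_nonneg_left _ hA
        rw [geom_sum_eq (by norm_num), ← pow_mul, mul_comm N 2, pow_mul]
        norm_num
        have : (0 : ℝ) < 4 ^ N := by positivity
        linarith

end Pool.Agent.V11331.BE
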