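import Pool.Agent.V11331.BE.Ito
import Pool.Agent.V11331.BE.Mom

set_option autoImplicit false

namespace Pool.Agent.V11331.BE

open MeasureTheory ProbabilityTheory Set Filter Pool.Agent.TH970
open scoped NNReal ENNReal Topology

universe u

variable {Ω : Type u} [mΩ : MeasurableSpace Ω] {d : ℕ}

/-! ### class (D) by domination -/

omit mΩ in
lemma stop_measurable (F : ℝ → MeasurableSpace Ω) (hmono : ∀ s t, s ≤ t → F s ≤ F t)
    (T : ℝ) (τ : Ω → ℝ) (hτ : IsStop T F τ) : Measurable[F T] τ := by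
  have h0 : ∀ x : ℝ, MeasurableSet[F T] (τ ⁻¹' Iic x) := by
    intro x
    rcases lt_or_ge x 0 with hx | hx
    · have h1 : τ ⁻¹' Iic x = ∅ := by
        ext ω
        simp only [mem_preimage, mem_Iic, mem_empty_iff_false, iff_false, not_le]
        exact lt_of_lt_of_le hx (hτ.1 ω).1
      rw [h1]
      exact @MeasurableSet.empty Ω (F T)
    rcases le_or_gt x T with hxT | hxT
    · exact hmono x T hxT _ (hτ.2 x ⟨hx, hxT⟩)
    · have h1 : τ ⁻¹' Iic x = univ := by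
        ext ω
        simp only [mem_preimage, mem_Iic, mem_univ, iff_true]
        exact (hτ.1 ω).2.trans hxT.le
      rw [h1]
      exact @MeasurableSet.univ Ω (F T)
  exact @measurable_of_Iic ℝ Ω _ _ _ (F T) _ _ _ τ h0

lemma sample_gen {Ω' : Type u} [MeasurableSpace Ω'] (T : ℝ) (X : ℝ → Ω' → ℝ)
    (hX : Measurable (fun q : Icc (0 : ℝ) T × Ω' => X q.1 q.2)) (τ : Ω' → ℝ)
    (h1 : ∀ ω, τ ω ∈ Icc 0 T) (hτ : Measurable τ) : Measurable (fun ω => X (τ ω) ω) := by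
  have h2 : Measurable (fun ω => ((⟨τ ω, h1 ω⟩ : Icc (0 : ℝ) T), ω)) :=
    (hτ.subtype_mk).prodMk measurable_id
  exact hX.comp h2

theorem classD_of_dominated (P : Measure Ω) [IsProbabilityMeasure P]
    (F : ℝ → MeasurableSpace Ω) (hF : ∀ t, F t ≤ mΩ) (hmono : ∀ s t, s ≤ t → F s ≤ F t)
    (T : ℝ) (hT : 0 ≤ T) (X : ℝ → Ω → ℝ) (hX : Prog T F X) (S : Ω → ℝ) (hS : Integrable S P)
    (hXS : ∀ t ∈ Icc (0 : ℝ) T, ∀ ω, |X t ω| ≤ S ω) : ClassD T P F X := by
  have hmem : MemLp S 1 P := memLp_one_iff_integrable.2 hS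
  have hS0 : ∀ ω, 0 ≤ S ω := fun ω => (abs_nonneg _).trans (hXS 0 ⟨le_rfl, hT⟩ ω)
  have hle : ∀ (τ : {τ : Ω → ℝ // IsStop T F τ}) (ω : Ω), ‖X (τ.1 ω) ω‖ ≤ ‖S ω‖ := by
    intro τ ω
    rw [Real.norm_eq_abs, Real.norm_of_nonneg (hS0 ω)]
    exact hXS _ (τ.2.1 ω) ω
  refine ⟨fun τ => ?_, ?_, ?_⟩
  · have h1 := @sample_gen Ω (F T) T X (hX T ⟨hT, le_rfl⟩) τ.1 (fun ω => τ.2.1 ω)
      (stop_measurable F hmono T τ.1 τ.2)
    exact (h1.mono (hF T) le_rfl).aestronglyMeasurable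
  · intro ε hε
    obtain ⟨δ, hδ, h⟩ := hmem.eLpNorm_indicator_le le_rfl ENNReal.one_ne_top hε
    refine ⟨δ, hδ, fun τ s hs hPs => (eLpNorm_mono fun ω => ?_).trans (h s hs hPs)⟩
    by_cases hω : ω ∈ s
    · rw [indicator_of_mem hω, indicator_of_mem hω]
      exact hle τ ω
    · rw [indicator_of_notMem hω, indicator_of_notMem hω]
  · refine ⟨(eLpNorm S 1 P).toNNReal, fun τ => ?_⟩
    rw [ENNReal.coe_toNNReal hmem.eLpNorm_lt_top.ne]
    exact eLpNorm_mono (hle τ)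

/-! ### the continuous version of a coordinate of the Brownian motion -/

omit mΩ in
lemma meas_of_ae_eq (G : MeasurableSpace Ω) [mΩ : MeasurableSpace Ω] (P : Measure Ω) (hGle : G ≤ mΩ)
    (hG : ∀ A, MeasurableSet[mΩ] A → P A = 0 → MeasurableSet[G] A) {f g : Ω → ℝ}
    (hf : Measurable[G] f) (hg : Measurable g) (h : ∀ᵐ ω ∂P, g ω = f ω) : Measurable[G] g := by
  intro C hC
  have hfm : Measurable f := hf.mono hGle le_rfl
  have hN1m : MeasurableSet[mΩ] (f ⁻¹' C ∩ (g ⁻¹' C)ᶜ) := (hfm hC).inter (hg hC).compl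
  have hN2m : MeasurableSet[mΩ] (g ⁻¹' C ∩ (f ⁻¹' C)ᶜ) := (hg hC).inter (hfm hC).compl
  have hnull : P {ω | ¬ g ω = f ω} = 0 := h
  have hN1 : P (f ⁻¹' C ∩ (g ⁻¹' C)ᶜ) = 0 := by
    refine measure_mono_null ?_ hnull
    rintro ω ⟨h1, h2⟩ h3
    exact h2 (by show g ω ∈ C; rw [h3]; exact h1)
  have hN2 : P (g ⁻¹' C ∩ (f ⁻¹' C)ᶜ) = 0 := by
    refine measure_mono_null ?_ hnull
    rintro ω ⟨h1, h2⟩ h3
    exact h2 (by show f ω ∈ C; rw [← h3]; exact h1)
  have heq : g ⁻¹' C = (f ⁻¹' C \ (f ⁻¹' C ∩ (g ⁻¹' C)ᶜ)) ∪ (g ⁻¹' C ∩ (f ⁻¹' C)ᶜ) := by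
    ext ω
    simp only [mem_union, Set.mem_sdiff, mem_inter_iff, mem_compl_iff]
    tauto
  rw [heq]
  exact @MeasurableSet.union Ω G _ _ (@MeasurableSet.diff Ω G _ _ (hf hC) (hG _ hN1m hN1))
    (hG _ hN2m hN2)

lemma Fil_mono (B : Fin d → ℝ≥0 → Ω → ℝ) (P : Measure Ω) (s t : ℝ) (hst : s ≤ t) :
    Fil B P s ≤ Fil B P t := by
  apply MeasurableSpace.generateFrom_mono
  rintro A (⟨i, r, C, hr, hC, rfl⟩ | hA)
  · exact Or.inl ⟨i, r, C, hr.trans hst, hC, rfl⟩
  · exact Or.inr hA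

lemma Fil_le (B : Fin d → ℝ≥0 → Ω → ℝ) (P : Measure Ω) (hB : ∀ i t, Measurable (B i t)) (t : ℝ) :
    Fil B P t ≤ mΩ := by
  apply MeasurableSpace.generateFrom_le
  rintro A (⟨i, s, C, -, hC, rfl⟩ | ⟨hA, -⟩)
  · exact hB i s hC
  · exact hA

lemma exists_W (P : Measure Ω) (B : Fin d → ℝ≥0 → Ω → ℝ) (hB : IsBM B P) (i0 : Fin d) :
    ∃ X : ℝ≥0 → Ω → ℝ, CBM P X ∧ Setting (Fil B P) (fun t ω => X t.toNNReal ω) ∧
      ∀ᵐ ω ∂P, ∀ t : ℝ, 0 ≤ t → X t.toNNReal ω = bt B i0 t ω := by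
  obtain ⟨X, hX, hae⟩ := Pool.Agent.V11330.BMTools.exists_CBM (hB.bm i0)
  refine ⟨X, hX, ⟨Fil_mono B P, Fil_le B P hB.meas, ⟨?_, ?_⟩, ?_⟩, ?_⟩
  · intro ω
    exact (hX.cont ω).comp continuous_real_toNNReal
  · intro t ht
    have h1 : Measurable[Fil B P t] (B i0 t.toNNReal) := by
      intro C hC
      exact MeasurableSpace.measurableSet_generateFrom
        (Or.inl ⟨i0, t.toNNReal, C, (Real.coe_toNNReal t ht).le, hC, rfl⟩)
    refine meas_of_ae_eq (Fil B P t) P (Fil_le B P hB.meas t) (fun A hA hA0 =>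
      MeasurableSpace.measurableSet_generateFrom (Or.inr ⟨hA, hA0⟩)) h1 (hX.meas _) ?_
    filter_upwards [hae] with ω hω
    exact hω _
  · intro ω
    show X (0 : ℝ).toNNReal ω = 0
    rw [Real.toNNReal_zero]
    exact hX.zero ω
  · filter_upwards [hae] with ω hω t _
    exact hω _

/-! ### the solution -/

/-- the vector with `x` in place `i0` and `0` elsewhere. -/
def vec (i0 : Fin d) (x : ℝ) : Fin d → ℝ := fun i => if i = i0 then x else 0

/-- the process `Y`. -/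
noncomputable def Yp (T c : ℝ) (W : ℝ → Ω → ℝ) (a b : ℕ → ℝ) (y0 : ℝ) (t : ℝ) (ω : Ω) : ℝ :=
  y0 + St T a (fun s => W s ω) (min t (tauW T c W ω)) - St T b id (min t (tauW T c W ω))

/-- the process `Z`. -/
noncomputable def Zp (T c : ℝ) (W : ℝ → Ω → ℝ) (a : ℕ → ℝ) (i0 : Fin d) (i : Fin d) (t : ℝ)
    (ω : Ω) : ℝ := if i = i0 then (if t ≤ tauW T c W ω then Sp T a t else 0) else 0

section
variable {F : ℝ → MeasurableSpace Ω} {W : ℝ → Ω → ℝ} (hS : Setting F W) {T c : ℝ} (hT : 0 < T)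
  (hc : 0 < c)
include hS hT hc

lemma cont_Yp (a b : ℕ → ℝ) (y0 : ℝ) (ω : Ω) : Continuous (fun t => Yp T c W a b y0 t ω) := by
  have h := (tauW_facts hS hT hc ω).2.1
  unfold Yp
  exact (continuous_const.add (continuous_St_stop hT a (hS.adp.cont ω) h)).sub
    (continuous_St_stop hT b continuous_id h)

lemma adapted_Yp (a b : ℕ → ℝ) (y0 : ℝ) {t : ℝ} (ht0 : 0 ≤ t) (htT : t ≤ T) :
    Measurable[F t] (Yp T c W a b y0 t) := by
  have h1 := meas_St_stop hS hT hc a hS.adp ht0 htT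
  have hid : Adp F (fun (t : ℝ) (_ : Ω) => t) :=
    ⟨fun ω => continuous_id, fun t _ => measurable_const⟩
  have h2 := meas_St_stop hS hT hc b hid ht0 htT
  exact (measurable_const.add h1).sub h2

lemma prog_Yp (a b : ℕ → ℝ) (y0 : ℝ) : Prog T F (Yp T c W a b y0) :=
  prog_of_cont hS.mono _ (cont_Yp hS hT hc a b y0)
    (fun _ ht0 htT => adapted_Yp hS hT hc a b y0 ht0 htT)

lemma Yp_T (a b : ℕ → ℝ) (y0 : ℝ) (ω : Ω) : Yp T c W a b y0 T ω =
    y0 + St T a (fun s => W s ω) (tauW T c W ω) - St T b id (tauW T c W ω) := by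
  unfold Yp
  rw [min_eq_right (tauW_facts hS hT hc ω).2.1.le]

lemma Yp_zero (a b : ℕ → ℝ) (y0 : ℝ) (ω : Ω) : Yp T c W a b y0 0 ω = y0 := by
  unfold Yp
  rw [min_eq_left (tauW_facts hS hT hc ω).1.le, St_eq hT a _ (N := 0) (by rw [tt_zero]),
    St_eq hT b _ (N := 0) (by rw [tt_zero])]
  simp

/-- the terminal values agree. -/
lemma terminal_eq (a b : ℕ → ℝ) (y0 : ℝ) (ω : Ω) :
    Yp T c W (fun n => a n + 1) (fun n => b n + kap c n) (y0 + 1) T ω = Yp T c W a b y0 T ω := by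
  rw [Yp_T hS hT hc, Yp_T hS hT hc]
  obtain ⟨h0, h1, h2, -⟩ := tauW_facts hS hT hc ω
  rw [St_add hT a (fun _ => 1) _ h1, St_add hT b (kap c) _ h1, St_one hT _ h0.le h1, hS.zero ω]
  unfold xp at h2
  linarith

lemma g_Zp (g : (Fin d → ℝ) → ℝ) (hg0 : g 0 = 0) (a b : ℕ → ℝ) (i0 : Fin d)
    (hb : ∀ n, b n = g (vec i0 (a n))) (s : ℝ) (ω : Ω) :
    g (fun i => Zp T c W a i0 i s ω) = if s ≤ tauW T c W ω then Sp T b s else 0 := by
  obtain ⟨h0, h1, -, -⟩ := tauW_facts hS hT hc ω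
  by_cases hs : s ≤ tauW T c W ω
  · rw [if_pos hs]
    have hZ : (fun i => Zp T c W a i0 i s ω) = vec i0 (Sp T a s) := by
      funext i
      unfold Zp vec
      rw [if_pos hs]
    rw [hZ]
    rcases lt_or_ge 0 s with h2 | h2
    · obtain ⟨n, hn1, hn2⟩ := exists_stage h2 (hs.trans_lt h1)
      rw [Sp_stage hT a hn1 hn2, Sp_stage hT b hn1 hn2, hb]
    · have h3 : ∀ x : ℕ → ℝ, Sp T x s = 0 := by
        intro x
        rw [Sp_eq hT x (N := 0) (by rw [tt_zero]; exact h2)]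
        simp
      rw [h3, h3]
      have : vec i0 (0 : ℝ) = 0 := by
        funext i
        simp [vec]
      rw [this, hg0]
  · rw [if_neg hs]
    have hZ : (fun i => Zp T c W a i0 i s ω) = 0 := by
      funext i
      unfold Zp
      rw [if_neg hs]
      simp
    rw [hZ, hg0]

/-- the domination. -/
lemma Yp_bound (a b : ℕ → ℝ) (y0 : ℝ) {A : ℝ} (hA : 0 ≤ A) (ha : ∀ n, |a n| ≤ A * 4 ^ n)
    (hb : ∀ n, |b n| ≤ A * 4 ^ n) {m : ℝ} (hm0 : 0 ≤ m) {ω : Ω}
    (hm : ∀ t ∈ Icc 0 T, |W t ω| ≤ m) {t : ℝ} (ht : 0 ≤ t) :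
    |Yp T c W a b y0 t ω| ≤ (|y0| + 2 * A * (2 * (1 + 2 / (c * T))) ^ 2 * (1 + T)) *
      (1 + m) ^ 3 := by
  obtain ⟨N, hN1, hN2⟩ := exists_stage_bound hT hc (hS.adp.cont ω) (hS.zero ω) hm0 hm
  have ht1 : min t (tauW T c W ω) ≤ tt T N := (min_le_right _ _).trans hN1
  have ht0 : 0 ≤ min t (tauW T c W ω) := le_min ht (tauW_facts hS hT hc ω).1.le
  have h1 := abs_St_le hT ha hm0 hA hm ht0 ht1
  have hid : ∀ t ∈ Icc 0 T, |(id t : ℝ)| ≤ T := by
    intro t ht
    simp only [id]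
    rw [abs_of_nonneg ht.1]; exact ht.2
  have h2 := abs_St_le hT hb hT.le hA hid ht0 ht1
  set K := 2 * (1 + 2 / (c * T)) with hK
  have hK0 : 0 ≤ K := by positivity
  have hNsq : ((2 : ℝ) ^ N) ^ 2 ≤ (K * (1 + m)) ^ 2 := pow_le_pow_left₀ (by positivity) hN2 2
  have h3 : |Yp T c W a b y0 t ω| ≤ |y0| + A * (2 ^ N) ^ 2 * (2 * m) + A * (2 ^ N) ^ 2 * (2 * T) := by
    unfold Yp
    calc _ ≤ |y0 + St T a (fun s => W s ω) (min t (tauW T c W ω))| +
          |St T b id (min t (tauW T c W ω))| := abs_sub _ _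
      _ ≤ |y0| + |St T a (fun s => W s ω) (min t (tauW T c W ω))| +
          |St T b id (min t (tauW T c W ω))| := by gcongr; exact abs_add_le _ _
      _ ≤ _ := by gcongr
  have h4 : A * ((2 : ℝ) ^ N) ^ 2 * (2 * m) + A * (2 ^ N) ^ 2 * (2 * T) ≤
      A * (K * (1 + m)) ^ 2 * (2 * (m + T)) := by
    have : A * ((2 : ℝ) ^ N) ^ 2 * (2 * m) + A * (2 ^ N) ^ 2 * (2 * T) =
        A * (2 ^ N) ^ 2 * (2 * (m + T)) := by ring
    rw [this]
    gcongr
  have h5 : A * (K * (1 + m)) ^ 2 * (2 * (m + T)) ≤ 2 * A * K ^ 2 * (1 + T) * (1 + m) ^ 3 := by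
    have e : 2 * A * K ^ 2 * (1 + T) * (1 + m) ^ 3 =
        A * (K * (1 + m)) ^ 2 * (2 * ((1 + T) * (1 + m))) := by ring
    rw [e]
    have : m + T ≤ (1 + T) * (1 + m) := by nlinarith [mul_nonneg hT.le hm0]
    gcongr
  have h6 : |y0| ≤ |y0| * (1 + m) ^ 3 := by
    have : (1 : ℝ) ≤ (1 + m) ^ 3 := one_le_pow₀ (by linarith)
    nlinarith [abs_nonneg y0]
  calc |Yp T c W a b y0 t ω| ≤ |y0| + A * (2 ^ N) ^ 2 * (2 * m) + A * (2 ^ N) ^ 2 * (2 * T) := h3
    _ ≤ |y0| * (1 + m) ^ 3 + 2 * A * K ^ 2 * (1 + T) * (1 + m) ^ 3 := by linarith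
    _ = _ := by ring

end

/-- the engine. -/
theorem engine (P : Measure Ω) [IsProbabilityMeasure P] (B : Fin d → ℝ≥0 → Ω → ℝ)
    (hB : IsBM B P) (i0 : Fin d) {X : ℝ≥0 → Ω → ℝ} (hX : CBM P X)
    (hS : Setting (Fil B P) (fun t ω => X t.toNNReal ω))
    (hae : ∀ᵐ ω ∂P, ∀ t : ℝ, 0 ≤ t → X t.toNNReal ω = bt B i0 t ω)
    {T c : ℝ} (hT : 0 < T) (hc : 0 < c) (g : (Fin d → ℝ) → ℝ) (hg0 : g 0 = 0) (a b : ℕ → ℝ)
    (hb : ∀ n, b n = g (vec i0 (a n))) (y0 : ℝ) {A : ℝ} (hA : 0 ≤ A)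
    (ha : ∀ n, |a n| ≤ A * 4 ^ n) (hb' : ∀ n, |b n| ≤ A * 4 ^ n) :
    IsSol T P B g (Yp T c (fun t ω => X t.toNNReal ω) a b y0 T)
      (Yp T c (fun t ω => X t.toNNReal ω) a b y0) (Zp T c (fun t ω => X t.toNNReal ω) a i0) ∧
    ∀ p : ℝ, 0 < p → ClassD T P (Fil B P)
        (fun t ω => |Yp T c (fun t ω => X t.toNNReal ω) a b y0 t ω| ^ p) ∧
      Integrable (fun ω => |Yp T c (fun t ω => X t.toNNReal ω) a b y0 T ω| ^ p) P := by
  set W : ℝ → Ω → ℝ := fun t ω => X t.toNNReal ω with hW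
  constructor
  · refine ⟨prog_Yp hS hT hc a b y0, ?_, fun ω => (cont_Yp hS hT hc a b y0 ω).continuousOn, ?_,
      fun t ω => St T a (fun s => W s ω) (min t (tauW T c W ω)), ?_, ?_, ?_⟩
    · intro i
      unfold Zp
      by_cases hi : i = i0
      · simp only [if_pos hi]
        exact prog_Z hS hT hc a
      · simp only [if_neg hi]
        intro t _
        exact measurable_const
    · refine Filter.Eventually.of_forall fun ω => ?_
      obtain ⟨h0, h1, -, -⟩ := tauW_facts hS hT hc ω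
      obtain ⟨N, hN⟩ := exists_tt h1
      set Am : ℝ := ∑ n ∈ Finset.range N, |a n| with hAm
      have hle : ∀ s, ENNReal.ofReal (∑ i, (Zp T c W a i0 i s ω) ^ 2) ≤
          ENNReal.ofReal (Am ^ 2) := by
        intro s
        apply ENNReal.ofReal_le_ofReal
        rw [Finset.sum_eq_single i0]
        · unfold Zp
          rw [if_pos rfl]
          by_cases hs : s ≤ tauW T c W ω
          · rw [if_pos hs, Sp_eq hT a (hs.trans hN), ← sq_abs]
            apply pow_le_pow_left₀ (abs_nonneg _)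
            refine (Finset.abs_sum_le_sum_abs _ _).trans (Finset.sum_le_sum fun n _ => ?_)
            split_ifs
            · exact le_rfl
            · rw [abs_zero]; exact abs_nonneg _
          · rw [if_neg hs]
            norm_num
            positivity
        · intro i _ hi
          unfold Zp
          rw [if_neg hi]
          norm_num
        · intro h
          exact absurd (Finset.mem_univ _) h
      calc ∫⁻ s in Icc (0 : ℝ) T, ENNReal.ofReal (∑ i, (Zp T c W a i0 i s ω) ^ 2)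
          ≤ ∫⁻ _ in Icc (0 : ℝ) T, ENNReal.ofReal (Am ^ 2) := lintegral_mono hle
        _ = ENNReal.ofReal (Am ^ 2) * volume (Icc (0 : ℝ) T) := by rw [setLIntegral_const]
        _ < ∞ := by
            rw [Real.volume_Icc]
            exact ENNReal.mul_lt_top ENNReal.ofReal_lt_top ENNReal.ofReal_lt_top
    · exact isIto_main hS hT hc P (bt B) i0 hae a
    · refine Filter.Eventually.of_forall fun ω => ?_
      exact (continuous_St_stop hT a (hS.adp.cont ω) (tauW_facts hS hT hc ω).2.1).continuousOn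
    · refine Filter.Eventually.of_forall fun ω => ?_
      intro t ht
      obtain ⟨h0, h1, -, -⟩ := tauW_facts hS hT hc ω
      have hg : (fun s => g (fun i => Zp T c W a i0 i s ω)) =
          fun s => if s ≤ tauW T c W ω then Sp T b s else 0 := by
        funext s
        exact g_Zp hS hT hc g hg0 a b i0 hb s ω
      have e1 : (∫ s in t..T, g (fun i => Zp T c W a i0 i s ω)) =
          St T b id (min T (tauW T c W ω)) - St T b id (min t (tauW T c W ω)) := by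
        rw [hg]
        obtain ⟨i1, i2⟩ := integral_Sp hT b h1 h0.le hT.le
        obtain ⟨j1, j2⟩ := integral_Sp hT b h1 h0.le ht.1
        rw [← i2, ← j2, intervalIntegral.integral_interval_sub_left i1 j1]
      rw [e1]
      unfold Yp
      ring
  · intro p hp
    set m : Ω → ℝ := fun ω => am (path X ω) T.toNNReal with hm
    have hTn : (0 : ℝ≥0) < T.toNNReal := by simpa using hT
    have hm0 : ∀ ω, 0 ≤ m ω := fun ω => am_nonneg (hX.cont ω) _
    have hWm : ∀ ω, ∀ t ∈ Icc 0 T, |W t ω| ≤ m ω := fun ω t ht =>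
      le_am (hX.cont ω) (Real.toNNReal_le_toNNReal ht.2)
    set C : ℝ := |y0| + 2 * A * (2 * (1 + 2 / (c * T))) ^ 2 * (1 + T) with hC
    have hC0 : 0 ≤ C := by positivity
    have hbd : ∀ t, 0 ≤ t → ∀ ω, |Yp T c W a b y0 t ω| ≤ C * (1 + m ω) ^ 3 := fun t ht ω =>
      Yp_bound hS hT hc a b y0 hA ha hb' (hm0 ω) (hWm ω) ht
    set S : Ω → ℝ := fun ω => (C * (1 + m ω) ^ 3) ^ p with hSdef
    have hSint : Integrable S P := by
      -- (1 + m)^(3 p) ≤ 2^(3p) (1 + m^(3p))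
      have h3p : 0 < 3 * p := by positivity
      have hi := integrable_am hX hTn h3p
      have hmeas : Measurable m := measurable_amX hX _
      have hdom : Integrable (fun ω => C ^ p * ((2 : ℝ) ^ (3 * p) * (1 + m ω ^ (3 * p)))) P :=
        (((integrable_const 1).add hi).const_mul _).const_mul _
      refine hdom.mono' ?_ (Filter.Eventually.of_forall fun ω => ?_)
      · exact (((((measurable_const.add hmeas).pow_const 3).const_mul C)).pow_const p).aestronglyMeasurable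
      · have h1 : 0 ≤ 1 + m ω := by linarith [hm0 ω]
        rw [Real.norm_eq_abs, abs_of_nonneg (by positivity), hSdef]
        simp only
        rw [Real.mul_rpow hC0 (by positivity)]
        apply mul_le_mul_of_nonneg_left _ (by positivity)
        have h2 : ((1 + m ω) ^ 3) ^ p = (1 + m ω) ^ (3 * p) := by
          rw [← Real.rpow_natCast, ← Real.rpow_mul h1]
          norm_num
        rw [h2]
        have h3 : 1 + m ω ≤ 2 * max 1 (m ω) := by
          have := le_max_left 1 (m ω)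
          have := le_max_right 1 (m ω)
          linarith
        calc (1 + m ω) ^ (3 * p) ≤ (2 * max 1 (m ω)) ^ (3 * p) :=
              Real.rpow_le_rpow h1 h3 h3p.le
          _ = 2 ^ (3 * p) * (max 1 (m ω)) ^ (3 * p) := by
              rw [Real.mul_rpow (by norm_num) (le_max_of_le_left (by norm_num))]
          _ ≤ 2 ^ (3 * p) * (1 + m ω ^ (3 * p)) := by
              apply mul_le_mul_of_nonneg_left _ (by positivity)
              rcases le_total 1 (m ω) with h | h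
              · rw [max_eq_right h]
                linarith
              · rw [max_eq_left h, Real.one_rpow]
                have := Real.rpow_nonneg (hm0 ω) (3 * p)
                linarith
    have hYS : ∀ t, 0 ≤ t → ∀ ω, |(|Yp T c W a b y0 t ω| ^ p)| ≤ S ω := by
      intro t ht ω
      rw [abs_of_nonneg (by positivity)]
      exact Real.rpow_le_rpow (abs_nonneg _) (hbd t ht ω) hp.le
    constructor
    · refine classD_of_dominated P (Fil B P) hS.le hS.mono T hT.le _ ?_ S hSint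
        (fun t ht ω => hYS t ht.1 ω)
      have hpY := prog_Yp hS hT hc a b y0
      intro t ht
      have hφ : Measurable (fun x : ℝ => |x| ^ p) := measurable_id.abs.pow_const p
      exact hφ.comp (hpY t ht)
    · refine hSint.mono' ?_ (Filter.Eventually.of_forall fun ω => hYS T hT.le ω)
      have h1 := adapted_Yp hS hT hc a b y0 hT.le le_rfl
      exact ((h1.mono (hS.le T) le_rfl).abs.pow_const p).aestronglyMeasurable

end Pool.Agent.V11331.BE
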